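import Pool.Agent.H629.CG.Stm
set_option autoImplicit false
set_option linter.unusedSectionVars false
namespace Pool.Agent.H629.CG.BLK
open MeasureTheory ProbabilityTheory Filter Topology Set
open scoped ENNReal NNReal
open Pool.Agent.H629.CG

/-- local coordinate -/
noncomputable def lc (m j : ℕ) (s : ℝ) : ℝ := 2 * m * s - (j : ℝ) / 2

noncomputable def YY {Ω : Type} (V : ℝ) (m c : ℕ) (X : ℝ → Ω → ℝ) (s : ℝ)
    (p : (Fin m → Ω) × ℝ) : ℝ :=
  ∑ i : Fin m, (blk m (2 * i + c)).indicator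
    (fun s => √V * p.2 - V / 2 + X (lc m (2 * i + c) s) (p.1 i)) s

lemma blk_meas (m j : ℕ) : MeasurableSet (blk m j) := measurableSet_Ico

lemma blk_uniq (hG : S_GEO) {m c : ℕ} (hm : 0 < m) (hc : c ≤ 1) {i i' : Fin m} {s : ℝ}
    (h : s ∈ blk m (2 * i + c)) (h' : s ∈ blk m (2 * i' + c)) : i = i' := by
  by_contra hne
  have h1 := ((hG m hm).2.2.2.2 c hc i i' hne s h s h').1
  have h0 : (0 : ℝ) < m := by exact_mod_cast hm
  have h2 : (0 : ℝ) < 1 / (4 * (m : ℝ)) := by positivity
  rw [sub_self, abs_zero] at h1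
  linarith

lemma YY_eq (hG : S_GEO) {Ω : Type} (V : ℝ) {m c : ℕ} (hm : 0 < m) (hc : c ≤ 1)
    (X : ℝ → Ω → ℝ) {i : Fin m} {s : ℝ} (h : s ∈ blk m (2 * i + c)) (p : (Fin m → Ω) × ℝ) :
    YY V m c X s p = √V * p.2 - V / 2 + X (lc m (2 * i + c) s) (p.1 i) := by
  unfold YY
  rw [Finset.sum_eq_single i]
  · rw [indicator_of_mem h]
  · intro j _ hj
    refine indicator_of_notMem (fun h' => hj (blk_uniq hG hm hc h' h)) _
  · intro h; exact absurd (Finset.mem_univ i) h

lemma YY_meas {Ω : Type} [MeasurableSpace Ω] (V : ℝ) (m c : ℕ) {X : ℝ → Ω → ℝ}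
    (hX : Measurable (Function.uncurry X)) : Measurable (Function.uncurry (YY V m c X)) := by
  have : Function.uncurry (YY V m c X) = fun q : ℝ × ((Fin m → Ω) × ℝ) => ∑ i : Fin m,
      ((blk m (2 * i + c)) ×ˢ (univ : Set ((Fin m → Ω) × ℝ))).indicator
        (fun q => √V * q.2.2 - V / 2 + X (lc m (2 * i + c) q.1) (q.2.1 i)) q := by
    funext q
    obtain ⟨s, p⟩ := q
    simp only [Function.uncurry_apply_pair, YY]
    refine Finset.sum_congr rfl fun i _ => ?_
    by_cases h : s ∈ blk m (2 * i + c)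
    · rw [indicator_of_mem h, indicator_of_mem (by simp [h])]
    · rw [indicator_of_notMem h, indicator_of_notMem (by simp [h])]
  rw [this]
  refine Finset.measurable_sum _ fun i _ => Measurable.indicator ?_ ((blk_meas _ _).prod .univ)
  refine Measurable.add (by fun_prop) ?_
  have h1 : Measurable fun q : ℝ × ((Fin m → Ω) × ℝ) => (lc m (2 * i + c) q.1, q.2.1 i) := by
    refine Measurable.prodMk ?_ ?_
    · unfold lc; fun_prop
    · exact (measurable_pi_apply i).comp (measurable_fst.comp measurable_snd)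
  exact hX.comp h1

lemma comp_mp {A B E : Type} [MeasurableSpace A] [MeasurableSpace B] [MeasurableSpace E]
    [TopologicalSpace E] [AddCommMonoid E] [Module ℝ E] {P : Measure A} {Q : Measure B}
    {W : A → E} {f : B → A} (hW : HasGaussianLaw W P) (hWm : AEMeasurable W P)
    (hf : MeasurePreserving f Q P) : HasGaussianLaw (fun b => W (f b)) Q := by
  refine ⟨?_⟩
  have : Q.map (fun b => W (f b)) = P.map W := by
    have e : (fun b => W (f b)) = W ∘ f := rfl
    rw [e, ← AEMeasurable.map_map_of_aemeasurable _ hf.measurable.aemeasurable, hf.map_eq]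
    rw [hf.map_eq]; exact hWm
  rw [this]
  exact hW.isGaussian_map

/-- joint Gaussian law of the building blocks -/
lemma gaussian_core {Ω : Type} [MeasurableSpace Ω] (P : Measure Ω) [IsProbabilityMeasure P]
    (n m : ℕ) (W : Fin m → Ω → Fin n → ℝ) (hW : ∀ i, HasGaussianLaw (W i) P) :
    HasGaussianLaw (fun p : (Fin m → Ω) × ℝ => ((fun i => W i (p.1 i) : Fin m → Fin n → ℝ), p.2))
      ((Measure.pi fun _ : Fin m => P).prod (gaussianReal 0 1)) := by
  have h1 : HasGaussianLaw (fun η : Fin m → Ω => (fun i => W i (η i) : Fin m → Fin n → ℝ))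
      (Measure.pi fun _ : Fin m => P) := by
    refine iIndepFun.hasGaussianLaw (X := fun i (η : Fin m → Ω) => W i (η i)) ?_ ?_
    · intro i
      exact comp_mp (hW i) (hW i).aemeasurable (measurePreserving_eval (fun _ : Fin m => P) i)
    · exact iIndepFun_pi (X := fun i => W i) (fun i => (hW i).aemeasurable)
  have h3 : HasGaussianLaw (fun x : ℝ => x) (gaussianReal 0 1) := IsGaussian.hasGaussianLaw_id
  have h4 : HasGaussianLaw (fun p : (Fin m → Ω) × ℝ => p.2)
      ((Measure.pi fun _ : Fin m => P).prod (gaussianReal 0 1)) :=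
    comp_mp (W := fun x : ℝ => x) (f := Prod.snd) h3 h3.aemeasurable measurePreserving_snd
  have h5 : HasGaussianLaw (fun p : (Fin m → Ω) × ℝ => (fun i => W i (p.1 i) : Fin m → Fin n → ℝ))
      ((Measure.pi fun _ : Fin m => P).prod (gaussianReal 0 1)) :=
    comp_mp (W := fun η : Fin m → Ω => (fun i => W i (η i) : Fin m → Fin n → ℝ)) (f := Prod.fst)
      h1 h1.aemeasurable measurePreserving_fst
  exact IndepFun.hasGaussianLaw h5 h4 (indepFun_prod₀ h1.aemeasurable h3.aemeasurable)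

theorem gauss (hG : S_GEO) {Ω : Type} [MeasurableSpace Ω] (P : Measure Ω) [IsProbabilityMeasure P]
    {X : ℝ → Ω → ℝ} {K : ℝ → ℝ → ℝ} (hX : LNF Hf P X K) (V : ℝ) {m c : ℕ} (hm : 0 < m)
    (hc : c ≤ 1) (n : ℕ) (t : Fin n → ℝ) (ht : ∀ k, t k ∈ evn m c) :
    HasGaussianLaw (fun p (k : Fin n) => YY V m c X (t k) p)
      ((Measure.pi fun _ : Fin m => P).prod (gaussianReal 0 1)) := by
  have ht' : ∀ k, ∃ i : Fin m, t k ∈ blk m (2 * i + c) := fun k => by
    simpa [evn] using ht k
  choose ι hι using ht'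
  have hloc : ∀ k, lc m (2 * ι k + c) (t k) ∈ Hf := fun k =>
    (hG m hm).2.2.2.1 (2 * ι k + c) (by have := (ι k).2; omega) (t k) (hι k)
  have hcore := gaussian_core P n m (fun _ ω k => X (lc m (2 * ι k + c) (t k)) ω)
    (fun _ => hX.gauss n _ hloc)
  let L : ((Fin m → Fin n → ℝ) × ℝ) →L[ℝ] (Fin n → ℝ) :=
    ContinuousLinearMap.pi fun k =>
      √V • ContinuousLinearMap.snd ℝ (Fin m → Fin n → ℝ) ℝ +
      ((ContinuousLinearMap.proj k : (Fin n → ℝ) →L[ℝ] ℝ).comp
        (ContinuousLinearMap.proj (ι k) : (Fin m → Fin n → ℝ) →L[ℝ] (Fin n → ℝ))).comp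
        (ContinuousLinearMap.fst ℝ (Fin m → Fin n → ℝ) ℝ)
  have h2 := hcore.map_fun L
  have h3 : HasGaussianLaw (fun p : (Fin m → Ω) × ℝ => L ((fun i k => X (lc m (2 * ι k + c) (t k)) (p.1 i)), p.2)
      + fun _ => -(V / 2)) ((Measure.pi fun _ : Fin m => P).prod (gaussianReal 0 1)) := by
    have := h2.isGaussian_map
    refine ⟨?_⟩
    have e : ((Measure.pi fun _ : Fin m => P).prod (gaussianReal 0 1)).map
        (fun p : (Fin m → Ω) × ℝ => L ((fun i k => X (lc m (2 * ι k + c) (t k)) (p.1 i)), p.2)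
          + fun _ => -(V / 2)) =
        (((Measure.pi fun _ : Fin m => P).prod (gaussianReal 0 1)).map
        (fun p : (Fin m → Ω) × ℝ => L ((fun i k => X (lc m (2 * ι k + c) (t k)) (p.1 i)), p.2))).map
          (fun y => y + fun _ => -(V / 2)) := by
      rw [AEMeasurable.map_map_of_aemeasurable (by fun_prop) h2.aemeasurable]
      rfl
    rw [e]
    infer_instance
  have e2 : (fun p (k : Fin n) => YY V m c X (t k) p) = (fun p : (Fin m → Ω) × ℝ =>
      L ((fun i k => X (lc m (2 * ι k + c) (t k)) (p.1 i)), p.2) + fun _ => -(V / 2)) := by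
    funext p k
    rw [YY_eq hG V hm hc X (hι k)]
    simp [L]
    ring
  rw [e2]
  exact h3



/-- the covariance of the block field -/
noncomputable def LL (V : ℝ) (m c : ℕ) (K : ℝ → ℝ → ℝ) (s t : ℝ) : ℝ :=
  ∑ i : Fin m, ∑ j : Fin m, (blk m (2 * i + c)).indicator (fun s =>
    (blk m (2 * j + c)).indicator (fun t =>
      V + if i = j then K (lc m (2 * i + c) s) (lc m (2 * j + c) t) else 0) t) s

lemma LL_eq (hG : S_GEO) (V : ℝ) {m c : ℕ} (hm : 0 < m) (hc : c ≤ 1) (K : ℝ → ℝ → ℝ)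
    {i j : Fin m} {s t : ℝ} (hs : s ∈ blk m (2 * i + c)) (ht : t ∈ blk m (2 * j + c)) :
    LL V m c K s t = V + if i = j then K (lc m (2 * i + c) s) (lc m (2 * j + c) t) else 0 := by
  unfold LL
  rw [Finset.sum_eq_single i]
  · rw [Finset.sum_eq_single j]
    · rw [indicator_of_mem hs, indicator_of_mem ht]
    · intro j' _ hj
      rw [indicator_of_mem hs]
      exact indicator_of_notMem (fun h' => hj (blk_uniq hG hm hc h' ht)) _
    · intro h; exact absurd (Finset.mem_univ j) h
  · intro i' _ hi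
    refine Finset.sum_eq_zero fun j' _ => ?_
    exact indicator_of_notMem (fun h' => hi (blk_uniq hG hm hc h' hs)) _
  · intro h; exact absurd (Finset.mem_univ i) h

section
variable {Ω : Type} [MeasurableSpace Ω] (P : Measure Ω) [IsProbabilityMeasure P]

lemma mp_i {m : ℕ} (i : Fin m) : MeasurePreserving (fun p : (Fin m → Ω) × ℝ => p.1 i)
    ((Measure.pi fun _ : Fin m => P).prod (gaussianReal 0 1)) P :=
  (measurePreserving_eval (fun _ : Fin m => P) i).comp measurePreserving_fst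

lemma mp_g {m : ℕ} : MeasurePreserving (fun p : (Fin m → Ω) × ℝ => p.2)
    ((Measure.pi fun _ : Fin m => P).prod (gaussianReal 0 1)) (gaussianReal 0 1) :=
  measurePreserving_snd

lemma memLp_g {m : ℕ} : MemLp (fun p : (Fin m → Ω) × ℝ => p.2) 2
    ((Measure.pi fun _ : Fin m => P).prod (gaussianReal 0 1)) :=
  (memLp_id_gaussianReal 2).comp_measurePreserving (mp_g P)

lemma hgl1 {X : ℝ → Ω → ℝ} {K : ℝ → ℝ → ℝ} (hX : LNF Hf P X K) {s : ℝ} (hs : s ∈ Hf) :
    HasGaussianLaw (X s) P := (hX.gauss 1 (fun _ => s) (fun _ => hs)).eval 0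

lemma memLp_x {X : ℝ → Ω → ℝ} {K : ℝ → ℝ → ℝ} (hX : LNF Hf P X K) {m : ℕ} (i : Fin m) {s : ℝ}
    (hs : s ∈ Hf) : MemLp (fun p : (Fin m → Ω) × ℝ => X s (p.1 i)) 2
    ((Measure.pi fun _ : Fin m => P).prod (gaussianReal 0 1)) :=
  (hgl1 P hX hs).memLp_two.comp_measurePreserving (mp_i P i)

lemma int_g {m : ℕ} : ∫ p : (Fin m → Ω) × ℝ, p.2
    ∂((Measure.pi fun _ : Fin m => P).prod (gaussianReal 0 1)) = 0 := by
  have h := (mp_g P (m := m)).map_eq
  have h0 : ∫ x, x ∂(gaussianReal 0 1) = 0 := by simp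
  have h1 : ∫ x, x ∂(((Measure.pi fun _ : Fin m => P).prod (gaussianReal 0 1)).map
      (fun p : (Fin m → Ω) × ℝ => p.2)) = ∫ p : (Fin m → Ω) × ℝ, p.2
        ∂((Measure.pi fun _ : Fin m => P).prod (gaussianReal 0 1)) :=
    integral_map (mp_g P).aemeasurable (by fun_prop)
  rw [h, h0] at h1
  exact h1.symm

lemma int_x {X : ℝ → Ω → ℝ} {K : ℝ → ℝ → ℝ} (hX : LNF Hf P X K) {m : ℕ} (i : Fin m) {s : ℝ}
    (hs : s ∈ Hf) : ∫ p : (Fin m → Ω) × ℝ, X s (p.1 i)
    ∂((Measure.pi fun _ : Fin m => P).prod (gaussianReal 0 1)) = -(K s s) / 2 := by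
  have h := (mp_i P i).map_eq
  rw [← hX.mean s hs]
  conv_rhs => rw [← h]
  rw [integral_map (mp_i P i).aemeasurable]
  rw [h]
  exact (hgl1 P hX hs).aemeasurable.aestronglyMeasurable

lemma cov_g {m : ℕ} : cov[fun p : (Fin m → Ω) × ℝ => p.2, fun p : (Fin m → Ω) × ℝ => p.2;
    (Measure.pi fun _ : Fin m => P).prod (gaussianReal 0 1)] = 1 := by
  rw [covariance_self (mp_g P).aemeasurable]
  have h := (mp_g P (m := m)).map_eq
  have h0 : Var[id; gaussianReal 0 1] = 1 := by simp
  have h1 : Var[id; ((Measure.pi fun _ : Fin m => P).prod (gaussianReal 0 1)).map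
      (fun p : (Fin m → Ω) × ℝ => p.2)] = Var[id ∘ (fun p : (Fin m → Ω) × ℝ => p.2);
        ((Measure.pi fun _ : Fin m => P).prod (gaussianReal 0 1))] :=
    variance_map aemeasurable_id (mp_g P).aemeasurable
  rw [h, h0] at h1
  exact h1.symm

lemma cov_gx {X : ℝ → Ω → ℝ} {K : ℝ → ℝ → ℝ} (hX : LNF Hf P X K) {m : ℕ} (i : Fin m) {s : ℝ}
    (hs : s ∈ Hf) : cov[fun p : (Fin m → Ω) × ℝ => X s (p.1 i), fun p : (Fin m → Ω) × ℝ => p.2;
    (Measure.pi fun _ : Fin m => P).prod (gaussianReal 0 1)] = 0 := by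
  refine IndepFun.covariance_eq_zero ?_ (memLp_x P hX i hs) (memLp_g P)
  exact indepFun_prod₀ (X := fun η : Fin m → Ω => X s (η i)) (Y := fun x : ℝ => x)
    ((hgl1 P hX hs).aemeasurable.comp_quasiMeasurePreserving
      (Measure.quasiMeasurePreserving_eval _ i)) aemeasurable_id

lemma cov_xx {X : ℝ → Ω → ℝ} {K : ℝ → ℝ → ℝ} (hX : LNF Hf P X K) {m : ℕ} (i j : Fin m) {s t : ℝ}
    (hs : s ∈ Hf) (ht : t ∈ Hf) :
    cov[fun p : (Fin m → Ω) × ℝ => X s (p.1 i), fun p : (Fin m → Ω) × ℝ => X t (p.1 j);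
    (Measure.pi fun _ : Fin m => P).prod (gaussianReal 0 1)] = if i = j then K s t else 0 := by
  split_ifs with hij
  · subst hij
    have h := (mp_i P i).map_eq
    rw [← hX.cov s hs t ht]
    conv_rhs => rw [← h]
    rw [covariance_map_fun ?_ ?_ (mp_i P i).aemeasurable]
    · rw [h]; exact (hgl1 P hX hs).aemeasurable.aestronglyMeasurable
    · rw [h]; exact (hgl1 P hX ht).aemeasurable.aestronglyMeasurable
  · refine IndepFun.covariance_eq_zero ?_ (memLp_x P hX i hs) (memLp_x P hX j ht)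
    have h0 : iIndepFun (fun (i : Fin m) (η : Fin m → Ω) => η i) (Measure.pi fun _ : Fin m => P) :=
      iIndepFun_pi (X := fun (_ : Fin m) (x : Ω) => x) (fun _ => aemeasurable_id)
    have h1 := h0.indepFun hij
    have h2 : IndepFun (fun p : (Fin m → Ω) × ℝ => p.1 i) (fun p : (Fin m → Ω) × ℝ => p.1 j)
        ((Measure.pi fun _ : Fin m => P).prod (gaussianReal 0 1)) := by
      rw [indepFun_iff_map_prod_eq_prod_map_map (mp_i P i).aemeasurable (mp_i P j).aemeasurable,
        (mp_i P i).map_eq, (mp_i P j).map_eq]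
      rw [indepFun_iff_map_prod_eq_prod_map_map (measurable_pi_apply i).aemeasurable
          (measurable_pi_apply j).aemeasurable,
        (measurePreserving_eval (fun _ : Fin m => P) i).map_eq,
        (measurePreserving_eval (fun _ : Fin m => P) j).map_eq] at h1
      rw [← h1]
      have hf := (measurePreserving_fst (μ := (Measure.pi fun _ : Fin m => P)) (ν := gaussianReal 0 1)).map_eq
      conv_rhs => rw [← hf]
      rw [Measure.map_map (by fun_prop) measurable_fst]
      rfl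
    have mX : ∀ u : ℝ, Measurable (X u) := fun u => hX.meas.comp (measurable_const.prodMk measurable_id)
    exact h2.comp (mX s) (mX t)

end

theorem meanY (hG : S_GEO) {Ω : Type} [MeasurableSpace Ω] (P : Measure Ω) [IsProbabilityMeasure P]
    {X : ℝ → Ω → ℝ} {K : ℝ → ℝ → ℝ} (hX : LNF Hf P X K) (V : ℝ) {m c : ℕ} (hm : 0 < m)
    (hc : c ≤ 1) {t : ℝ} (ht : t ∈ evn m c) :
    ∫ p, YY V m c X t p ∂((Measure.pi fun _ : Fin m => P).prod (gaussianReal 0 1)) =
      -(LL V m c K t t) / 2 := by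
  obtain ⟨i, hi⟩ : ∃ i : Fin m, t ∈ blk m (2 * i + c) := by simpa [evn] using ht
  have hloc : lc m (2 * i + c) t ∈ Hf :=
    (hG m hm).2.2.2.1 (2 * i + c) (by have := i.2; omega) t hi
  simp_rw [YY_eq hG V hm hc X hi]
  rw [LL_eq hG V hm hc K hi hi, if_pos rfl]
  have i1 : Integrable (fun p : (Fin m → Ω) × ℝ => √V * p.2)
      ((Measure.pi fun _ : Fin m => P).prod (gaussianReal 0 1)) :=
    ((memLp_g P).integrable (by norm_num)).const_mul _
  have i2 : Integrable (fun p : (Fin m → Ω) × ℝ => X (lc m (2 * i + c) t) (p.1 i))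
      ((Measure.pi fun _ : Fin m => P).prod (gaussianReal 0 1)) :=
    (memLp_x P hX i hloc).integrable (by norm_num)
  have i3 : Integrable (fun p : (Fin m → Ω) × ℝ => √V * p.2 - V / 2)
      ((Measure.pi fun _ : Fin m => P).prod (gaussianReal 0 1)) := i1.sub (integrable_const _)
  rw [integral_add i3 i2, integral_sub i1 (integrable_const _),
    integral_const_mul, int_g, int_x P hX i hloc]
  simp
  ring

theorem covY (hG : S_GEO) {Ω : Type} [MeasurableSpace Ω] (P : Measure Ω) [IsProbabilityMeasure P]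
    {X : ℝ → Ω → ℝ} {K : ℝ → ℝ → ℝ} (hX : LNF Hf P X K) {V : ℝ} (hV : 0 ≤ V) {m c : ℕ} (hm : 0 < m)
    (hc : c ≤ 1) {s t : ℝ} (hs : s ∈ evn m c) (ht : t ∈ evn m c) :
    cov[YY V m c X s, YY V m c X t; (Measure.pi fun _ : Fin m => P).prod (gaussianReal 0 1)] =
      LL V m c K s t := by
  obtain ⟨i, hi⟩ : ∃ i : Fin m, s ∈ blk m (2 * i + c) := by simpa [evn] using hs
  obtain ⟨j, hj⟩ : ∃ j : Fin m, t ∈ blk m (2 * j + c) := by simpa [evn] using ht
  have hli : lc m (2 * i + c) s ∈ Hf :=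
    (hG m hm).2.2.2.1 (2 * i + c) (by have := i.2; omega) s hi
  have hlj : lc m (2 * j + c) t ∈ Hf :=
    (hG m hm).2.2.2.1 (2 * j + c) (by have := j.2; omega) t hj
  have mg := memLp_g (m := m) P
  have mi := memLp_x P hX i hli
  have mj := memLp_x P hX j hlj
  have mgV := mg.const_mul (√V)
  have e1 : YY V m c X s = fun p => (√V * p.2 + X (lc m (2 * i + c) s) (p.1 i)) + (-(V / 2)) := by
    funext p; rw [YY_eq hG V hm hc X hi]; ring
  have e2 : YY V m c X t = fun p => (√V * p.2 + X (lc m (2 * j + c) t) (p.1 j)) + (-(V / 2)) := by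
    funext p; rw [YY_eq hG V hm hc X hj]; ring
  rw [e1, e2, LL_eq hG V hm hc K hi hj]
  have ii : Integrable (fun p : (Fin m → Ω) × ℝ => √V * p.2 + X (lc m (2 * i + c) s) (p.1 i))
      ((Measure.pi fun _ : Fin m => P).prod (gaussianReal 0 1)) :=
    (mgV.integrable (by norm_num)).add (mi.integrable (by norm_num))
  have ij : Integrable (fun p : (Fin m → Ω) × ℝ => √V * p.2 + X (lc m (2 * j + c) t) (p.1 j))
      ((Measure.pi fun _ : Fin m => P).prod (gaussianReal 0 1)) :=
    (mgV.integrable (by norm_num)).add (mj.integrable (by norm_num))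
  rw [covariance_add_const_left ii, covariance_add_const_right ij]
  have a1 := covariance_add_left mgV mi (mgV.add mj)
  have a2 := covariance_add_right mgV mgV mj
  have a3 := covariance_add_right mi mgV mj
  have e3 : cov[fun p : (Fin m → Ω) × ℝ => √V * p.2 + X (lc m (2 * i + c) s) (p.1 i),
      fun p => √V * p.2 + X (lc m (2 * j + c) t) (p.1 j);
      (Measure.pi fun _ : Fin m => P).prod (gaussianReal 0 1)] =
      cov[fun p : (Fin m → Ω) × ℝ => √V * p.2, fun p => √V * p.2;
        (Measure.pi fun _ : Fin m => P).prod (gaussianReal 0 1)] +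
      cov[fun p : (Fin m → Ω) × ℝ => √V * p.2, fun p => X (lc m (2 * j + c) t) (p.1 j);
        (Measure.pi fun _ : Fin m => P).prod (gaussianReal 0 1)] +
      (cov[fun p : (Fin m → Ω) × ℝ => X (lc m (2 * i + c) s) (p.1 i), fun p => √V * p.2;
        (Measure.pi fun _ : Fin m => P).prod (gaussianReal 0 1)] +
      cov[fun p : (Fin m → Ω) × ℝ => X (lc m (2 * i + c) s) (p.1 i),
        fun p => X (lc m (2 * j + c) t) (p.1 j);
        (Measure.pi fun _ : Fin m => P).prod (gaussianReal 0 1)]) := by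
    rw [← a2, ← a3]
    exact a1
  rw [e3]
  have c1 : cov[fun p : (Fin m → Ω) × ℝ => √V * p.2, fun p => √V * p.2;
        (Measure.pi fun _ : Fin m => P).prod (gaussianReal 0 1)] = V := by
    rw [covariance_const_mul_left, covariance_const_mul_right, cov_g, mul_one,
      Real.mul_self_sqrt hV]
  have c2 : cov[fun p : (Fin m → Ω) × ℝ => √V * p.2, fun p => X (lc m (2 * j + c) t) (p.1 j);
        (Measure.pi fun _ : Fin m => P).prod (gaussianReal 0 1)] = 0 := by
    rw [covariance_const_mul_left, covariance_comm, cov_gx P hX j hlj, mul_zero]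
  have c3 : cov[fun p : (Fin m → Ω) × ℝ => X (lc m (2 * i + c) s) (p.1 i), fun p => √V * p.2;
        (Measure.pi fun _ : Fin m => P).prod (gaussianReal 0 1)] = 0 := by
    rw [covariance_const_mul_right, cov_gx P hX i hli, mul_zero]
  rw [c1, c2, c3, cov_xx P hX i j hli hlj]
  split_ifs with h
  · ring
  · ring



lemma subst (m j : ℕ) (hm : 0 < m) (f : ℝ → ℝ≥0∞) (hf : Measurable f) :
    ENNReal.ofReal (2 * m) * ∫⁻ u in blk m j, f (lc m j u) = ∫⁻ v in Hf, f v := by
  have h0 : (0 : ℝ) < m := by exact_mod_cast hm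
  have hmem : ∀ u, u ∈ blk m j ↔ lc m j u ∈ Hf := by
    intro u
    unfold blk lc Hf
    simp only [mem_Ico]
    rw [div_le_iff₀ (by positivity), lt_div_iff₀ (by positivity)]
    constructor
    · rintro ⟨h1, h2⟩; constructor <;> linarith
    · rintro ⟨h1, h2⟩; constructor <;> linarith
  have e1 : ∫⁻ u in blk m j, f (lc m j u) = ∫⁻ u, (Hf.indicator f) (2 * m * u - (j : ℝ) / 2) := by
    rw [← lintegral_indicator (blk_meas m j)]
    refine lintegral_congr fun u => ?_
    by_cases h : u ∈ blk m j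
    · rw [indicator_of_mem h]
      have := (hmem u).1 h
      unfold lc at this
      rw [indicator_of_mem this]; rfl
    · rw [indicator_of_notMem h]
      have h' : ¬ (lc m j u ∈ Hf) := fun h' => h ((hmem u).2 h')
      unfold lc at h'
      rw [indicator_of_notMem h']
  have hHf : MeasurableSet Hf := measurableSet_Ico
  have e2 : ∫⁻ v in Hf, f v = ∫⁻ x, (Hf.indicator f) (x - (j : ℝ) / 2) := by
    rw [← lintegral_indicator hHf]
    exact (lintegral_sub_right_eq_self (fun x => Hf.indicator f x) _).symm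
  have e3 := Real.smul_map_volume_mul_left (a := 2 * (m : ℝ)) (by positivity)
  rw [e1, e2]
  conv_rhs => rw [← e3]
  have hmg : Measurable (fun x : ℝ => (Hf.indicator f) (x - (j : ℝ) / 2)) :=
    (hf.indicator hHf).comp (by fun_prop)
  rw [lintegral_smul_measure, lintegral_map hmg (by fun_prop), abs_of_pos (by positivity)]
  rfl

lemma gau (V a : ℝ) (hV : 0 ≤ V) :
    ∫⁻ x, ex (a * (√V * x - V / 2)) ∂(gaussianReal 0 1) = ex ((a ^ 2 - a) / 2 * V) := by
  have hi : Integrable (fun x : ℝ => Real.exp ((a * √V) * x)) (gaussianReal 0 1) :=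
    integrable_exp_mul_gaussianReal _
  have h1 := mgf_gaussianReal (X := id) (p := gaussianReal 0 1) (μ := 0) (v := 1) (by simp) (a * √V)
  simp only [mgf, id] at h1
  have h2 : ∫ x, Real.exp (a * (√V * x - V / 2)) ∂(gaussianReal 0 1) =
      Real.exp ((a ^ 2 - a) / 2 * V) := by
    have e : ∀ x : ℝ, Real.exp (a * (√V * x - V / 2)) =
        Real.exp (-(a * V / 2)) * Real.exp (a * √V * x) := by
      intro x; rw [← Real.exp_add]; congr 1; ring
    simp_rw [e]
    rw [integral_const_mul, h1, ← Real.exp_add]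
    congr 1
    have := Real.sq_sqrt hV
    simp only [zero_mul, zero_add, NNReal.coe_one, one_mul]
    rw [mul_pow, this]
    ring
  unfold ex
  rw [← ofReal_integral_eq_lintegral_ofReal, h2]
  · have e : (fun x : ℝ => Real.exp (a * (√V * x - V / 2))) = fun x =>
        Real.exp (-(a * V / 2)) * Real.exp (a * √V * x) := by
      funext x; rw [← Real.exp_add]; congr 1; ring
    rw [e]; exact hi.const_mul _
  · exact Eventually.of_forall fun x => (Real.exp_pos _).le

lemma masY (hG : S_GEO) {Ω : Type} [MeasurableSpace Ω] {X : ℝ → Ω → ℝ}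
    (hX : Measurable (Function.uncurry X)) (V : ℝ) {m c : ℕ} (hm : 0 < m) (hc : c ≤ 1)
    (p : (Fin m → Ω) × ℝ) :
    mas (evn m c) (YY V m c X) p =
      ex (√V * p.2 - V / 2) * ((ENNReal.ofReal (2 * m))⁻¹ * ∑ i, mas Hf X (p.1 i)) := by
  have h0 : (0 : ℝ) < m := by exact_mod_cast hm
  have hX1 : ∀ ω, Measurable fun u => X u ω := fun ω => hX.comp (measurable_id.prodMk measurable_const)
  unfold mas evn
  rw [lintegral_iUnion (fun i => blk_meas m _)]
  · rw [tsum_fintype, Finset.mul_sum, Finset.mul_sum]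
    refine Finset.sum_congr rfl fun i _ => ?_
    have e1 : ∫⁻ u in blk m (2 * i + c), ENNReal.ofReal (Real.exp (YY V m c X u p)) =
        ∫⁻ u in blk m (2 * i + c), ex (√V * p.2 - V / 2) * ex (X (lc m (2 * i + c) u) (p.1 i)) := by
      refine setLIntegral_congr_fun (blk_meas m _) fun u hu => ?_
      simp only [ex]
      rw [YY_eq hG V hm hc X hu, Real.exp_add, ENNReal.ofReal_mul (Real.exp_pos _).le]
    rw [e1, lintegral_const_mul' _ _ (show ex (√V * p.2 - V / 2) ≠ ∞ from ENNReal.ofReal_ne_top)]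
    congr 1
    have := subst m (2 * i + c) hm (fun v => ex (X v (p.1 i)))
      (ENNReal.measurable_ofReal.comp (Real.measurable_exp.comp (hX1 _)))
    rw [show (∫⁻ u in Hf, ENNReal.ofReal (Real.exp (X u (p.1 i)))) = _ from this.symm,
      ← mul_assoc, ENNReal.inv_mul_cancel (ENNReal.ofReal_pos.2 (by positivity)).ne' ENNReal.ofReal_ne_top, one_mul]
  · intro i j hij
    rw [Function.onFun, Set.disjoint_left]
    intro s hs hs'
    exact hij (blk_uniq hG hm hc hs hs')

theorem t_BLK (hG : S_GEO) : S_BLK := by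
  intro Ω _ P _ X K hX V hV m c hm hc
  have h0 : (0 : ℝ) < m := by exact_mod_cast hm
  refine ⟨YY V m c X, LL V m c K, ⟨YY_meas V m c hX.meas, fun n t ht => gauss hG P hX V hm hc n t ht,
    fun t ht => meanY hG P hX V hm hc ht, fun s hs t ht => covY hG P hX hV hm hc hs ht⟩, ?_, ?_, ?_⟩
  · intro i s hs t ht
    rw [LL_eq hG V hm hc K hs ht, if_pos rfl]
    rfl
  · intro i i' hne s hs t ht
    rw [LL_eq hG V hm hc K hs ht, if_neg hne, add_zero]
  · intro a
    have hm1 : Measurable (fun ω => mas Hf X ω) := by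
      unfold mas
      refine Measurable.lintegral_prod_left' (f := fun p : ℝ × Ω => ENNReal.ofReal (Real.exp (X p.1 p.2))) ?_
      exact ENNReal.measurable_ofReal.comp (Real.measurable_exp.comp hX.meas)
    have hS : Measurable (fun η : Fin m → Ω => ∑ i, mas Hf X (η i)) :=
      Finset.measurable_sum _ fun i _ => hm1.comp (measurable_pi_apply i)
    have hc0 : (ENNReal.ofReal (2 * m))⁻¹ ≠ 0 := ENNReal.inv_ne_zero.2 ENNReal.ofReal_ne_top
    have hct : (ENNReal.ofReal (2 * m))⁻¹ ≠ ∞ :=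
      ENNReal.inv_ne_top.2 (ENNReal.ofReal_pos.2 (by positivity)).ne'
    have e1 : ∀ p : (Fin m → Ω) × ℝ, (mas (evn m c) (YY V m c X) p) ^ a =
        (ENNReal.ofReal (2 * m) ^ (-a) * (∑ i, mas Hf X (p.1 i)) ^ a) *
          ex (a * (√V * p.2 - V / 2)) := by
      intro p
      rw [masY hG hX.meas V hm hc]
      have hex0 : ex (√V * p.2 - V / 2) ≠ 0 := by simp [ex, Real.exp_pos]
      have hext : ex (√V * p.2 - V / 2) ≠ ∞ := ENNReal.ofReal_ne_top
      have hmul : ∀ x y : ℝ≥0∞, x ≠ 0 → x ≠ ∞ → (x * y) ^ a = x ^ a * y ^ a := by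
        intro x y hx hx'
        rcases lt_or_ge a 0 with ha | ha
        · rcases eq_or_ne y 0 with h | h
          · rw [h, mul_zero, ENNReal.zero_rpow_of_neg ha, ENNReal.mul_top]
            rw [Ne, ENNReal.rpow_eq_zero_iff]
            push Not
            exact ⟨fun h => absurd h hx, fun h => absurd h hx'⟩
          · exact ENNReal.mul_rpow_of_ne_zero hx h _
        · exact ENNReal.mul_rpow_of_nonneg _ _ ha
      rw [hmul _ _ hex0 hext, hmul _ _ hc0 hct]
      have e2 : ex (√V * p.2 - V / 2) ^ a = ex (a * (√V * p.2 - V / 2)) := by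
        unfold ex
        rw [ENNReal.ofReal_rpow_of_pos (Real.exp_pos _), ← Real.exp_mul]
        congr 2; ring
      rw [e2, ENNReal.inv_rpow, ← ENNReal.rpow_neg, mul_comm]
    unfold mom
    simp_rw [e1]
    rw [lintegral_prod_mul (f := fun η : Fin m → Ω => ENNReal.ofReal (2 * m) ^ (-a) * (∑ i, mas Hf X (η i)) ^ a)
      (g := fun x : ℝ => ex (a * (√V * x - V / 2)))]
    · rw [gau V a hV, lintegral_const_mul _ (hS.pow_const a)]
      ring
    · exact ((hS.pow_const a).const_mul _).aemeasurable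
    · refine Measurable.aemeasurable ?_
      unfold ex; fun_prop

end Pool.Agent.H629.CG.BLK
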