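import Pool.Agent.H629.CG.Stm

-- proof by helper653
set_option autoImplicit false

namespace Pool.Agent.H629.CG.GEO

open Pool.Agent.H629.CG
open MeasureTheory ProbabilityTheory Filter Topology Set
open scoped ENNReal NNReal

theorem mem_blk {m j : ℕ} (hm : 0 < m) {s : ℝ} :
    s ∈ blk m j ↔ (j : ℝ) ≤ 4 * m * s ∧ 4 * m * s < j + 1 := by
  have h : (0 : ℝ) < 4 * m := by positivity
  unfold blk
  rw [mem_Ico, div_le_iff₀ h, lt_div_iff₀ h, mul_comm s]

theorem mem_evn {m c : ℕ} {s : ℝ} : s ∈ evn m c ↔ ∃ i : Fin m, s ∈ blk m (2 * i + c) := by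
  unfold evn
  rw [mem_iUnion]

theorem blk_eq {m j j' : ℕ} (hm : 0 < m) {s : ℝ} (h : s ∈ blk m j) (h' : s ∈ blk m j') :
    j = j' := by
  rw [mem_blk hm] at h h'
  have h1 : (j : ℝ) < j' + 1 := by linarith
  have h2 : (j' : ℝ) < j + 1 := by linarith
  have h3 : j < j' + 1 := by exact_mod_cast h1
  have h4 : j' < j + 1 := by exact_mod_cast h2
  omega

theorem evn_sub {m c : ℕ} (hm : 0 < m) (hc : c ≤ 1) : evn m c ⊆ Hf := by
  intro s hs
  obtain ⟨i, hi⟩ := mem_evn.1 hs
  rw [mem_blk hm] at hi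
  have hm' : (0 : ℝ) < m := by exact_mod_cast hm
  have h1 : (0 : ℝ) ≤ 4 * m * s := le_trans (Nat.cast_nonneg _) hi.1
  have h2 : 2 * (i : ℕ) + c + 1 ≤ 2 * m := by
    have := i.2
    omega
  have h3 : (((2 * (i : ℕ) + c : ℕ) : ℝ) + 1) ≤ 2 * m := by exact_mod_cast h2
  constructor
  · by_contra h
    push Not at h
    nlinarith
  · by_contra h
    push Not at h
    nlinarith [hi.2]

theorem vol_evn {m c : ℕ} (hm : 0 < m) : volume (evn m c) = ENNReal.ofReal (1 / 4) := by
  have hm' : (0 : ℝ) < m := by exact_mod_cast hm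
  unfold evn
  rw [measure_iUnion]
  · have h1 : ∀ i : Fin m, volume (blk m (2 * i + c)) = ENNReal.ofReal (1 / (4 * m)) := by
      intro i
      unfold blk
      rw [Real.volume_Ico]
      congr 1
      field_simp
      ring
    rw [tsum_congr h1, tsum_fintype, Finset.sum_const, Finset.card_univ, Fintype.card_fin,
      nsmul_eq_mul, ← ENNReal.ofReal_natCast, ← ENNReal.ofReal_mul (by positivity)]
    congr 1
    field_simp
  · intro i i' hne
    refine Set.disjoint_left.2 ?_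
    intro s h h'
    apply hne
    have := blk_eq hm h h'
    ext
    omega
  · intro i
    exact measurableSet_Ico

theorem t_GEO : S_GEO := by
  intro m hm
  have hm' : (0 : ℝ) < m := by exact_mod_cast hm
  refine ⟨fun c hc => ⟨?_, evn_sub hm hc, vol_evn hm⟩, ?_, ?_, ?_, ?_⟩
  · exact MeasurableSet.iUnion fun i => measurableSet_Ico
  · apply Set.Subset.antisymm
    · exact Set.union_subset (evn_sub hm (by norm_num)) (evn_sub hm le_rfl)
    · intro s hs
      obtain ⟨h0, h1⟩ := hs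
      have h2 : (0 : ℝ) ≤ 4 * m * s := by positivity
      have h3 : 4 * m * s < ((2 * m : ℕ) : ℝ) := by
        push_cast
        nlinarith
      have h4 : ⌊4 * m * s⌋₊ < 2 * m := (Nat.floor_lt h2).2 h3
      have h5 : s ∈ blk m ⌊4 * m * s⌋₊ := by
        rw [mem_blk hm]
        exact ⟨Nat.floor_le h2, Nat.lt_floor_add_one _⟩
      rcases Nat.mod_two_eq_zero_or_one ⌊4 * m * s⌋₊ with h6 | h6
      · left
        rw [mem_evn]
        refine ⟨⟨⌊4 * m * s⌋₊ / 2, by omega⟩, ?_⟩
        have h7 : 2 * (⌊4 * m * s⌋₊ / 2) + 0 = ⌊4 * m * s⌋₊ := by omega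
        show s ∈ blk m (2 * (⌊4 * m * s⌋₊ / 2) + 0)
        rw [h7]
        exact h5
      · right
        rw [mem_evn]
        refine ⟨⟨⌊4 * m * s⌋₊ / 2, by omega⟩, ?_⟩
        have h7 : 2 * (⌊4 * m * s⌋₊ / 2) + 1 = ⌊4 * m * s⌋₊ := by omega
        show s ∈ blk m (2 * (⌊4 * m * s⌋₊ / 2) + 1)
        rw [h7]
        exact h5
  · refine Set.disjoint_left.2 ?_
    intro s h h'
    obtain ⟨i, hi⟩ := mem_evn.1 h
    obtain ⟨i', hi'⟩ := mem_evn.1 h'
    have := blk_eq hm hi hi'
    omega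
  · intro j hj s hs
    rw [mem_blk hm] at hs
    constructor
    · linarith [hs.1]
    · linarith [hs.2]
  · intro c hc i i' hne s hs t ht
    have hsH : s ∈ Hf := evn_sub hm hc (mem_evn.2 ⟨i, hs⟩)
    have htH : t ∈ Hf := evn_sub hm hc (mem_evn.2 ⟨i', ht⟩)
    rw [mem_blk hm] at hs ht
    constructor
    · have hne' : (i : ℕ) ≠ i' := fun h => hne (Fin.ext h)
      rw [div_le_iff₀ (by positivity)]
      have hcast : ∀ k : Fin m, ((2 * (k : ℕ) + c : ℕ) : ℝ) = 2 * (k : ℕ) + c := by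
        intro k; push_cast; ring
      rw [hcast] at hs ht
      rcases Nat.lt_or_gt_of_ne hne' with h | h
      · have h1 : ((i : ℕ) : ℝ) + 1 ≤ (i' : ℕ) := by exact_mod_cast h
        have h2 : t - s ≤ |s - t| := by rw [abs_sub_comm]; exact le_abs_self _
        nlinarith [hs.2, ht.1]
      · have h1 : ((i' : ℕ) : ℝ) + 1 ≤ (i : ℕ) := by exact_mod_cast h
        have h2 : s - t ≤ |s - t| := le_abs_self _
        nlinarith [hs.1, ht.2]
    · rw [abs_le]
      constructor
      · linarith [hsH.1, htH.2]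
      · linarith [hsH.2, htH.1]

end Pool.Agent.H629.CG.GEO
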