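import Pool.Agent.H629.CG.Stm
set_option autoImplicit false
namespace Pool.Agent.H629.CG
open MeasureTheory ProbabilityTheory Filter Topology Set
open scoped ENNReal NNReal

theorem t_PZ : S_PZ := by
  intro p x C hp hx hC
  set q := p / (p - 1) with hq
  have hp1 : 0 < p - 1 := by linarith
  have hq0 : 0 < q := by rw [hq]; positivity
  have hpq : p.HolderConjugate q := Real.HolderConjugate.conjExponent hp
  set D := (C + 1) ^ (1 / p) with hD
  have hD0 : D ≠ 0 := by
    rw [hD, Ne, ENNReal.rpow_eq_zero_iff]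
    push Not
    exact ⟨fun h => absurd h (by simp), fun h => absurd h (by simp [hC])⟩
  have hDt : D ≠ ∞ := ENNReal.rpow_ne_top_of_nonneg (by positivity) (by simp [hC])
  set t := (ENNReal.ofReal x / D) ^ q with ht
  have ht0 : t ≠ 0 := by
    rw [ht, Ne, ENNReal.rpow_eq_zero_iff]
    push Not
    refine ⟨fun h => ?_, fun h => absurd h ?_⟩
    · exact absurd h (ENNReal.div_pos (by simp [hx]) hDt).ne'
    · exact ENNReal.div_ne_top ENNReal.ofReal_ne_top hD0
  refine ⟨1 - t, ENNReal.sub_lt_self ENNReal.one_ne_top one_ne_zero ht0, ?_⟩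
  intro Ω _ P _ N hN h1 h2
  set A := {ω | ENNReal.ofReal x < N ω} with hA
  have hAm : MeasurableSet A := measurableSet_lt measurable_const hN
  have hAc : {ω | N ω ≤ ENNReal.ofReal x} = Aᶜ := by ext ω; simp [hA]
  have hsplit : ENNReal.ofReal x + ENNReal.ofReal x ≤ ENNReal.ofReal x + ∫⁻ ω in A, N ω ∂P := by
    calc ENNReal.ofReal x + ENNReal.ofReal x = ∫⁻ ω, N ω ∂P := by
          rw [h1, ← ENNReal.ofReal_add hx.le hx.le]; congr 1; ring
      _ = ∫⁻ ω in Aᶜ, N ω ∂P + ∫⁻ ω in A, N ω ∂P := by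
          rw [add_comm, lintegral_add_compl _ hAm]
      _ ≤ ENNReal.ofReal x + ∫⁻ ω in A, N ω ∂P := by
          gcongr
          calc ∫⁻ ω in Aᶜ, N ω ∂P ≤ ∫⁻ ω in Aᶜ, ENNReal.ofReal x ∂P := by
                refine setLIntegral_mono' hAm.compl fun ω hω => ?_
                rw [← hAc] at hω; exact hω
            _ = ENNReal.ofReal x * P Aᶜ := by simp
            _ ≤ ENNReal.ofReal x * 1 := by gcongr; exact prob_le_one
            _ = ENNReal.ofReal x := mul_one _
  have h3 : ENNReal.ofReal x ≤ ∫⁻ ω in A, N ω ∂P :=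
    (ENNReal.add_le_add_iff_left ENNReal.ofReal_ne_top).1 hsplit
  have h4 : ∫⁻ ω in A, N ω ∂P ≤ D * (P A) ^ (1 / q) := by
    have hH := ENNReal.lintegral_mul_le_Lp_mul_Lq (P.restrict A) hpq hN.aemeasurable
      (aemeasurable_const (b := (1 : ℝ≥0∞)))
    have e1 : ∫⁻ ω in A, N ω ∂P = ∫⁻ ω in A, (N * (fun _ => (1 : ℝ≥0∞) : Ω → ℝ≥0∞)) ω ∂P := by simp
    rw [e1]
    refine hH.trans ?_
    gcongr
    · rw [hD]
      refine ENNReal.rpow_le_rpow ?_ (by positivity)
      exact (setLIntegral_le_lintegral _ _).trans (h2.trans le_self_add)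
    · simp
  have h5 : t ≤ P A := by
    have h6 : ENNReal.ofReal x / D ≤ (P A) ^ (1 / q) := by
      rw [ENNReal.div_le_iff_le_mul (Or.inl hD0) (Or.inl hDt), mul_comm]
      exact h3.trans h4
    calc t = (ENNReal.ofReal x / D) ^ q := rfl
      _ ≤ ((P A) ^ (1 / q)) ^ q := ENNReal.rpow_le_rpow h6 hq0.le
      _ = P A := by rw [← ENNReal.rpow_mul, one_div_mul_cancel hq0.ne', ENNReal.rpow_one]
  rw [hAc, prob_compl_eq_one_sub hAm]
  exact tsub_le_tsub_left h5 1

theorem t_REC : S_REC := by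
  intro k ε₀ hk hε₀ f C C' h1 h2
  have key : ∀ n : ℕ, ∀ ε, 0 < ε → ε < ε₀ → ε₀ ≤ k ^ n * ε → f ε ≤ 2 * C + C' := by
    intro n
    induction n with
    | zero => intro ε h h' h''; simp at h''; linarith
    | succ n ih =>
      intro ε h h' h''
      rcases lt_or_ge (k * ε) ε₀ with hlt | hge
      · have h3 := h1 ε h hlt
        have h4 := ih (k * ε) (by positivity) hlt (by rw [pow_succ, mul_assoc] at h''; exact h'')
        calc f ε ≤ f (k * ε) / 2 + C := h3
          _ ≤ (2 * C + C') / 2 + C := by gcongr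
          _ = C + C' / 2 + C := by
              rw [ENNReal.add_div, mul_comm 2 C, mul_div_assoc,
                ENNReal.div_self (by norm_num) (by norm_num), mul_one]
          _ ≤ C + C' + C := by gcongr; exact ENNReal.half_le_self
          _ = 2 * C + C' := by ring
      · exact (h2 ε h h' hge).trans le_add_self
  intro ε h h'
  obtain ⟨n, hn⟩ := pow_unbounded_of_one_lt (ε₀ / ε) hk
  refine key n ε h h' ?_
  rw [div_lt_iff₀ h] at hn
  exact hn.le
end Pool.Agent.H629.CG
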