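import Pool.Agent.H629.CG.Fin
import Pool.Agent.H629.CG.PZ
import Pool.Agent.H629.CG.BLK
import Pool.Agent.H870.CG.UI
import Pool.Agent.H157.CG.TRP
import Pool.Agent.H935.CG.GIR
import Pool.Agent.H161.CG.MOMC
import Pool.Agent.H629.CG.GEO
import Pool.Agent.H100.CG.CM
import Pool.Agent.H127.CG.SUMN
import Pool.Agent.H155.CG.KMON
import Pool.Agent.H187.CG.NEG0
import Pool.Agent.H190.CG.CMP
import Pool.Agent.H200.CG.M1
import Pool.Agent.H249.CG.KREP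
import Pool.Agent.H261.CG.LNM
import Pool.Agent.H278.CG.POS
import Pool.Agent.H282.CG.LIP
import Pool.Agent.H32.CG.GFD
import Pool.Agent.H331.CG.SML
import Pool.Agent.H349.CG.SER
import Pool.Agent.H404.CG.WHL
import Pool.Agent.H415.CG.KST
import Pool.Agent.H59.CG.R1
import Pool.Agent.H632.CG.REAL
import Pool.Agent.H670.CG.KAH
import Pool.Agent.H671.CG.SUMP
import Pool.Agent.H719.CG.NEG
import Pool.Agent.H728.CG.R2
import Pool.Agent.H767.CG.LAW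
import Pool.Agent.H772.CG.KDOM
import Pool.Agent.H903.CG.CNV
import Pool.Agent.H921.CG.KDER
import Pool.Agent.H980.CG.KFD
import Pool.Agent.H980.CG.M2

/-!
# MP_e22585_pr: all steps together
-/

set_option autoImplicit false

namespace Pool.Agent.H629.CG

theorem all : S_ENN ∧ S_REAL := by
  have hCM : S_CM := Pool.Agent.H100.CG.CM.t_CM
  have hKREP : S_KREP := Pool.Agent.H249.CG.KREP.t_KREP
  have hKUNIQ : S_KUNIQ := Pool.Agent.H249.CG.KREP.t_KUNIQ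
  have hKDOM : S_KDOM := Pool.Agent.H772.CG.KDOM.t_KDOM
  have hKDER : S_KDER := Pool.Agent.H921.CG.KDER.t_KDER hKDOM
  have hKST : S_KST := Pool.Agent.H415.CG.KST.t_KST hKDOM
  have hKMON : S_KMON := Pool.Agent.H155.CG.KMON.t_KMON hKDOM hKUNIQ hKDER hKST
  have hKFD : S_KFD := Pool.Agent.H980.CG.KFD.t_KFD hKREP hKMON
  have hUI : S_UI := Pool.Agent.H870.CG.UI.t_UI
  have hSLLN : S_SLLN := Pool.Agent.H870.CG.UI.t_SLLN
  have hTRP : S_TRP := Pool.Agent.H157.CG.TRP.t_TRP hSLLN hUI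
  have hLNM : S_LNM := Pool.Agent.H261.CG.LNM.t_LNM
  have hJEN : S_JEN := Pool.Agent.H261.CG.LNM.t_JEN
  have hKAH : S_KAH := Pool.Agent.H670.CG.KAH.t_KAH hLNM hKFD hTRP
  have hGFD : S_GFD := Pool.Agent.H32.CG.GFD.t_GFD hCM hKREP
  have hGIR : S_GIR := Pool.Agent.H935.CG.GIR.t_GIR hLNM hGFD hTRP
  have hSML : S_SML := Pool.Agent.H331.CG.SML.t_SML hKAH hJEN
  have hGEO : S_GEO := Pool.Agent.H629.CG.GEO.t_GEO
  have hBLK : S_BLK := Pool.Agent.H629.CG.BLK.t_BLK hGEO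
  have hSUMP : S_SUMP := Pool.Agent.H671.CG.SUMP.t_SUMP
  have hSUMN : S_SUMN := Pool.Agent.H127.CG.SUMN.t_SUMN
  have hSUMG : S_SUMG := Pool.Agent.H127.CG.SUMN.t_SUMG
  have hPZ : S_PZ := t_PZ
  have hREC : S_REC := t_REC
  have hR1 : S_R1 := Pool.Agent.H59.CG.R1.t_R1
  have hR2 : S_R2 := Pool.Agent.H728.CG.R2.t_R2 hR1
  have hCMP : S_CMP := Pool.Agent.H190.CG.CMP.t_CMP hKAH hGEO hBLK hR2
  have hPOS : S_POS := Pool.Agent.H278.CG.POS.t_POS hJEN hGEO hSUMP hREC hR2 hCMP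
  have hNEG0 : S_NEG0 :=
    Pool.Agent.H187.CG.NEG0.t_NEG0 hJEN hGEO hSUMN hPZ hREC hR2 hCMP hPOS
  have hNEG : S_NEG := Pool.Agent.H719.CG.NEG.t_NEG hJEN hGEO hSUMG hR2 hCMP hNEG0
  have hWHL : S_WHL := Pool.Agent.H404.CG.WHL.t_WHL hJEN hPOS hNEG
  have hSER : S_SER := Pool.Agent.H349.CG.SER.t_SER hR2 hSML
  have hLIP : S_LIP := Pool.Agent.H282.CG.LIP.t_LIP
  have hFAT : S_FAT := Pool.Agent.H282.CG.LIP.t_FAT
  have hMOMC : S_MOMC := Pool.Agent.H161.CG.MOMC.t_MOMC hFAT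
  have hM1 : S_M1 := Pool.Agent.H200.CG.M1.t_M1
  have hM2 : S_M2 := Pool.Agent.H980.CG.M2.t_M2 hM1 hLIP
  have hLAW : S_LAW := Pool.Agent.H767.CG.LAW.t_LAW hM2 hM1 hFAT hLIP
  have hCNV : S_CNV := Pool.Agent.H903.CG.CNV.t_CNV hR1 hR2 hLNM
  have hENN : S_ENN := t_ENN hGIR hWHL hSER hMOMC hLAW hCNV
  exact ⟨hENN, Pool.Agent.H632.CG.REAL.t_REAL hCNV hENN⟩

end Pool.Agent.H629.CG
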