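import Mathlib

/-!
# MP_e22585_pr: moments of the centered Gaussian multiplicative chaos (definitions)
-/

set_option autoImplicit false

namespace Pool.Agent.H629.CG

open MeasureTheory ProbabilityTheory Filter Topology Set
open scoped ENNReal NNReal

/-! ## Part 1: definitions used in the final statement -/

/-- The distance of `s, t ∈ [0,1)`: on the interval (`c = false`), on the circle (`c = true`). -/
noncomputable def gap (c : Bool) (s t : ℝ) : ℝ :=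
  if c then min |s - t| (1 - |s - t|) else |s - t|

/-- The regularised covariance `Cov (ω_ε s, ω_ε t)` of the problem: `-μ log r(s-t)` if
`ε ≤ |s-t|` (circle: `ε ≤ |s-t| ≤ 1-ε`), and
`μ (-log r(ε) + (1 - |s-t|/ε) ε (log r)'(ε))` if `|s-t| ≤ ε` (circle: `|s-t|` modulo one). -/
noncomputable def cova (μ : ℝ) (r : ℝ → ℝ) (c : Bool) (ε s t : ℝ) : ℝ :=
  if ε ≤ gap c s t then -μ * Real.log (r (s - t))
  else μ * (-Real.log (r ε) +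
    (1 - gap c s t / ε) * (ε * deriv (fun x => Real.log (r x)) ε))

/-- The admissible functions `r` (on `(-1,0) ∪ (0,1)`): positive, even, smooth (`C¹` suffices),
`t (log r)'(t) → 1` as `t → 0`, and `r(1) = 1` as a limit (interval case) or `r(t) = r(1-t)`
(circle case). -/
structure Admissible (r : ℝ → ℝ) (c : Bool) : Prop where
  pos : ∀ t ∈ Ioo (0 : ℝ) 1, 0 < r t
  even : ∀ t ∈ Ioo (0 : ℝ) 1, r (-t) = r t
  smooth : ContDiffOn ℝ 1 r (Ioo 0 1)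
  logder : Tendsto (fun t => t * deriv (fun x => Real.log (r x)) t) (𝓝[>] 0) (𝓝 1)
  interval : c = false → r 1 = 1 ∧ Tendsto r (𝓝[<] 1) (𝓝 1)
  circle : c = true → ∀ t ∈ Ioo (0 : ℝ) 1, r (1 - t) = r t

/-- A Gaussian process `ω_ε` on `[0,1)` (jointly measurable) with mean `-Var/2` and the
covariance `cova`. -/
structure IsField (μ : ℝ) (r : ℝ → ℝ) (c : Bool) (ε : ℝ) {Ω : Type} [MeasurableSpace Ω]
    (P : Measure Ω) (X : ℝ → Ω → ℝ) : Prop where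
  meas : Measurable (Function.uncurry X)
  gauss : IsGaussianProcess (fun t : Ico (0 : ℝ) 1 => X t) P
  mean : ∀ t ∈ Ico (0 : ℝ) 1, ∫ ω, X t ω ∂P = -(Var[X t; P]) / 2
  cov : ∀ s ∈ Ico (0 : ℝ) 1, ∀ t ∈ Ico (0 : ℝ) 1, cov[X s, X t; P] = cova μ r c ε s t

/-- `E G(Z_ε) → E G(Z')` for all bounded continuous `G`: convergence in law as `ε → 0+`. -/
def LawConv {Ω : ℝ → Type} [∀ ε, MeasurableSpace (Ω ε)] (P : ∀ ε, Measure (Ω ε))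
    (Z : ∀ ε, Ω ε → ℝ) {Ω' : Type} [MeasurableSpace Ω'] (P' : Measure Ω') (Z' : Ω' → ℝ) : Prop :=
  ∀ G : ℝ → ℝ, Continuous G → (∃ B : ℝ, ∀ x, |G x| ≤ B) →
    Tendsto (fun ε => ∫ ω, G (Z ε ω) ∂(P ε)) (𝓝[>] 0) (𝓝 (∫ ω, G (Z' ω) ∂P'))

/-- The random measure `M` on `[0,1]` is the limit (in law, tested against nonnegative continuous
functions) of `e^{ω_ε(u)} du`: the multiplicative chaos `M_μ`. -/
structure IsLimit {Ω : ℝ → Type} [∀ ε, MeasurableSpace (Ω ε)] (P : ∀ ε, Measure (Ω ε))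
    (X : ∀ ε, ℝ → Ω ε → ℝ) {Ω' : Type} [MeasurableSpace Ω'] (P' : Measure Ω')
    (M : Ω' → Measure ℝ) : Prop where
  meas : Measurable M
  fin : ∀ᵐ ω ∂P', M ω univ < ∞
  supp : ∀ᵐ ω ∂P', M ω (Icc (0 : ℝ) 1)ᶜ = 0
  lim : ∀ ψ : ℝ → ℝ, Continuous ψ → (∀ u, 0 ≤ ψ u) →
    LawConv P (fun ε ω => ∫ u in Icc (0 : ℝ) 1, ψ u * Real.exp (X ε u ω)) P'
      (fun ω => ∫ u, ψ u ∂(M ω))

/-! ## Part 2: internal definitions -/

/-- The regularised profile. -/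
noncomputable def rho (r : ℝ → ℝ) (ε d : ℝ) : ℝ :=
  if ε ≤ d then -Real.log (r d)
  else -Real.log (r ε) + (1 - d / ε) * (ε * deriv (fun x => Real.log (r x)) ε)

/-- The internal form of the covariance (equal to `cova` on `[0,1)`). -/
noncomputable def kk (μ : ℝ) (r : ℝ → ℝ) (c : Bool) (ε s t : ℝ) : ℝ := μ * rho r ε (gap c s t)

/-- Log-normal field on the set `A`: jointly measurable, Gaussian on `A`, mean `-K(t,t)/2`,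
covariance `K`. -/
structure LNF {Ω : Type} [MeasurableSpace Ω] (A : Set ℝ) (P : Measure Ω) (X : ℝ → Ω → ℝ)
    (K : ℝ → ℝ → ℝ) : Prop where
  meas : Measurable (Function.uncurry X)
  gauss : ∀ (n : ℕ) (t : Fin n → ℝ), (∀ i, t i ∈ A) →
    HasGaussianLaw (fun ω (i : Fin n) => X (t i) ω) P
  mean : ∀ t ∈ A, ∫ ω, X t ω ∂P = -(K t t) / 2
  cov : ∀ s ∈ A, ∀ t ∈ A, cov[X s, X t; P] = K s t

/-- `∫_A w(u) e^{X(u)} du`. -/
noncomputable def mass {Ω : Type} (A : Set ℝ) (w : ℝ → ℝ) (X : ℝ → Ω → ℝ) (ω : Ω) : ℝ≥0∞ :=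
  ∫⁻ u in A, ENNReal.ofReal (w u * Real.exp (X u ω))

/-- `∫_A e^{X(u)} du`. -/
noncomputable def mas {Ω : Type} (A : Set ℝ) (X : ℝ → Ω → ℝ) (ω : Ω) : ℝ≥0∞ :=
  ∫⁻ u in A, ENNReal.ofReal (Real.exp (X u ω))

/-- `E (∫_A e^X)^a`. -/
noncomputable def mom {Ω : Type} [MeasurableSpace Ω] (P : Measure Ω) (A : Set ℝ)
    (X : ℝ → Ω → ℝ) (a : ℝ) : ℝ≥0∞ :=
  ∫⁻ ω, (mas A X ω) ^ a ∂P

/-- `exp` with values in `[0,∞]`. -/
noncomputable def ex (x : ℝ) : ℝ≥0∞ := ENNReal.ofReal (Real.exp x)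

/-- The half interval `[0,1/2)`. -/
def Hf : Set ℝ := Ico 0 (1 / 2)

/-- Standard Gaussian measure on `Fin N → ℝ`. -/
noncomputable def gam (N : ℕ) : Measure (Fin N → ℝ) := Measure.pi fun _ => gaussianReal 0 1

/-- `exp (⟨ξ_i, z⟩ - |ξ_i|²/2)`. -/
noncomputable def ee {n N : ℕ} (ξ : Fin n → Fin N → ℝ) (i : Fin n) (z : Fin N → ℝ) : ℝ :=
  Real.exp (∑ k, ξ i k * z k - (∑ k, ξ i k ^ 2) / 2)

/-- `∑_i exp (⟨ξ_i, z⟩ - |ξ_i|²/2)`. -/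
noncomputable def WW {n N : ℕ} (ξ : Fin n → Fin N → ℝ) (z : Fin N → ℝ) : ℝ := ∑ i, ee ξ i z

/-- `F` is `C²` on `(0,∞)` with derivatives `F1`, `F2` and power bounds. -/
structure Good (F F1 F2 : ℝ → ℝ) : Prop where
  d1 : ∀ w, 0 < w → HasDerivAt F (F1 w) w
  d2 : ∀ w, 0 < w → HasDerivAt F1 (F2 w) w
  c2 : ContinuousOn F2 (Ioi 0)
  bd : ∃ C m : ℝ, 0 ≤ C ∧ 0 ≤ m ∧ ∀ w, 0 < w → |F w| ≤ C * (w ^ m + w ^ (-m)) ∧
    |F1 w| ≤ C * (w ^ m + w ^ (-m)) ∧ |F2 w| ≤ C * (w ^ m + w ^ (-m))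

/-- The block `[j/(4m), (j+1)/(4m))` of `[0,1/2)`, `j < 2m`. -/
def blk (m j : ℕ) : Set ℝ := Ico ((j : ℝ) / (4 * m)) (((j : ℝ) + 1) / (4 * m))

/-- The union of the blocks `2 i + c`, `i < m` (`c = 0` or `1`). -/
def evn (m c : ℕ) : Set ℝ := ⋃ i : Fin m, blk m (2 * i + c)

/-- Profile on `(0,1)`. -/
structure Prof (r : ℝ → ℝ) : Prop where
  pos : ∀ t ∈ Ioo (0 : ℝ) 1, 0 < r t
  smooth : ContDiffOn ℝ 1 r (Ioo 0 1)
  logder : Tendsto (fun t => t * deriv (fun x => Real.log (r x)) t) (𝓝[>] 0) (𝓝 1)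

/-- A family of fields on the half interval with covariance `μ ρ_ε(|s-t|)`, `0 < ε < ε₀`. -/
structure Fam (μ : ℝ) (r : ℝ → ℝ) (ε₀ : ℝ) (Ω : ℝ → Type) [∀ ε, MeasurableSpace (Ω ε)]
    (P : ∀ ε, Measure (Ω ε)) (X : ∀ ε, ℝ → Ω ε → ℝ) : Prop where
  prob : ∀ ε ∈ Ioo 0 ε₀, IsProbabilityMeasure (P ε)
  lnf : ∀ ε ∈ Ioo 0 ε₀, LNF Hf (P ε) (X ε) (fun s t => μ * rho r ε |s - t|)

/-- A family of fields on `[0,1)` with covariance `kk`, `0 < ε < ε₀`. -/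
structure Full (μ : ℝ) (r : ℝ → ℝ) (c : Bool) (ε₀ : ℝ) (Ω : ℝ → Type)
    [∀ ε, MeasurableSpace (Ω ε)] (P : ∀ ε, Measure (Ω ε)) (X : ∀ ε, ℝ → Ω ε → ℝ) : Prop where
  prob : ∀ ε ∈ Ioo 0 ε₀, IsProbabilityMeasure (P ε)
  lnf : ∀ ε ∈ Ioo 0 ε₀, LNF (Ico 0 1) (P ε) (X ε) (kk μ r c ε)

/-- Fields with `E e^{X(u)} = 1` on `[0,1)`. -/
structure Mn (ε₀ : ℝ) (Ω : ℝ → Type) [∀ ε, MeasurableSpace (Ω ε)] (P : ∀ ε, Measure (Ω ε))
    (X : ∀ ε, ℝ → Ω ε → ℝ) : Prop where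
  prob : ∀ ε ∈ Ioo 0 ε₀, IsProbabilityMeasure (P ε)
  meas : ∀ ε ∈ Ioo 0 ε₀, Measurable (Function.uncurry (X ε))
  mean : ∀ ε ∈ Ioo 0 ε₀, ∀ u ∈ Ico (0 : ℝ) 1, ∫⁻ ω, ex (X ε u ω) ∂(P ε) = 1

/-- `{u ∈ [0,1) : gap(u,0) < δ}`. -/
def Dl (c : Bool) (δ : ℝ) : Set ℝ := {u | u ∈ Ico (0 : ℝ) 1 ∧ gap c u 0 < δ}

end Pool.Agent.H629.CG
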