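import Pool.Agent.H629.CG.Stm

/-!
# MP_e22585_pr: assembly from the steps (values in `[0,∞]`)
-/

set_option autoImplicit false

namespace Pool.Agent.H629.CG

open MeasureTheory ProbabilityTheory Filter Topology Set
open scoped ENNReal NNReal

/-- The final statement with values in `[0,∞]`. -/
def S_ENN : Prop := ∀ (μ : ℝ) (r : ℝ → ℝ) (c : Bool), 0 < μ → μ < 2 → Admissible r c →
  ∀ φ : ℝ → ℝ, Measurable φ → (∃ a b : ℝ, 0 < a ∧ ∀ u ∈ Icc (0 : ℝ) 1, a ≤ φ u ∧ φ u ≤ b) →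
  ∀ (ε₀ : ℝ) (Ω : ℝ → Type) [∀ ε, MeasurableSpace (Ω ε)] (P : ∀ ε, Measure (Ω ε))
    (X : ∀ ε, ℝ → Ω ε → ℝ) (Ω' : Type) [MeasurableSpace Ω'] (P' : Measure Ω')
    [IsProbabilityMeasure P'] (M : Ω' → Measure ℝ), 0 < ε₀ →
  (∀ ε ∈ Ioo 0 ε₀, IsField μ r c ε (P ε) (X ε)) → IsLimit P X P' M →
  ∀ q : ℝ, -1 / μ - 1 / 2 < q → q < 2 / μ →
  (∀ᵐ ω ∂P', ∫⁻ u in Ioo 0 1, ENNReal.ofReal (r u ^ (μ * q) * φ u) ∂(M ω) < ∞) ∧
  ∫⁻ ω, (∫⁻ u in Ioo 0 1, ENNReal.ofReal (r u ^ (μ * q) * φ u) ∂(M ω)) ^ q ∂P' ≠ ∞ ∧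
  Tendsto (fun ε => ENNReal.ofReal (Real.exp (μ * (Real.log (r ε) - 1) * (q * (q + 1) / 2))) *
      ∫⁻ ω, (∫⁻ u in Icc (0 : ℝ) 1, ENNReal.ofReal (φ u * Real.exp (X ε u ω - X ε 0 ω))) ^ q
        ∂(P ε)) (𝓝[>] 0)
    (𝓝 (∫⁻ ω, (∫⁻ u in Ioo 0 1, ENNReal.ofReal (r u ^ (μ * q) * φ u) ∂(M ω)) ^ q ∂P'))

/-- The final statement with real values. -/
def S_REAL : Prop := ∀ (μ : ℝ) (r : ℝ → ℝ) (c : Bool), 0 < μ → μ < 2 → Admissible r c →
  ∀ φ : ℝ → ℝ, Measurable φ → (∃ a b : ℝ, 0 < a ∧ ∀ u ∈ Icc (0 : ℝ) 1, a ≤ φ u ∧ φ u ≤ b) →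
  ∀ (ε₀ : ℝ) (Ω : ℝ → Type) [∀ ε, MeasurableSpace (Ω ε)] (P : ∀ ε, Measure (Ω ε))
    (X : ∀ ε, ℝ → Ω ε → ℝ) (Ω' : Type) [MeasurableSpace Ω'] (P' : Measure Ω')
    [IsProbabilityMeasure P'] (M : Ω' → Measure ℝ), 0 < ε₀ →
  (∀ ε ∈ Ioo 0 ε₀, IsField μ r c ε (P ε) (X ε)) → IsLimit P X P' M →
  ∀ q : ℝ, -1 / μ - 1 / 2 < q → q < 2 / μ →
  (∀ᵐ ω ∂P', IntegrableOn (fun u => r u ^ (μ * q) * φ u) (Ioo 0 1) (M ω) ∧
    0 < ∫ u in Ioo 0 1, r u ^ (μ * q) * φ u ∂(M ω)) ∧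
  Integrable (fun ω => (∫ u in Ioo 0 1, r u ^ (μ * q) * φ u ∂(M ω)) ^ q) P' ∧
  (∀ᶠ ε in 𝓝[>] (0 : ℝ),
    (∀ᵐ ω ∂(P ε), IntegrableOn (fun u => φ u * Real.exp (X ε u ω - X ε 0 ω)) (Icc (0 : ℝ) 1) ∧
      0 < ∫ u in Icc (0 : ℝ) 1, φ u * Real.exp (X ε u ω - X ε 0 ω)) ∧
    Integrable (fun ω => (∫ u in Icc (0 : ℝ) 1, φ u * Real.exp (X ε u ω - X ε 0 ω)) ^ q) (P ε)) ∧
  Tendsto (fun ε => Real.exp (μ * (Real.log (r ε) - 1) * (q * (q + 1) / 2)) *
      ∫ ω, (∫ u in Icc (0 : ℝ) 1, φ u * Real.exp (X ε u ω - X ε 0 ω)) ^ q ∂(P ε)) (𝓝[>] 0)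
    (𝓝 (∫ ω, (∫ u in Ioo 0 1, r u ^ (μ * q) * φ u ∂(M ω)) ^ q ∂P'))

lemma ex_ne_top (x : ℝ) : ex x ≠ ∞ := ENNReal.ofReal_ne_top

lemma mass_measurable {Ω : Type} [MeasurableSpace Ω] {A : Set ℝ} {w : ℝ → ℝ} {X : ℝ → Ω → ℝ}
    (hw : Measurable w) (hX : Measurable (Function.uncurry X)) : Measurable (mass A w X) := by
  unfold mass
  refine Measurable.lintegral_prod_left' (f := fun p : ℝ × Ω => ENNReal.ofReal (w p.1 * Real.exp (X p.1 p.2))) ?_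
  refine ENNReal.measurable_ofReal.comp ?_
  exact (hw.comp measurable_fst).mul (Real.measurable_exp.comp hX)

lemma rpow_anti {x y : ℝ≥0∞} {p : ℝ} (hp : p ≤ 0) (h : x ≤ y) : y ^ p ≤ x ^ p := by
  have e : ∀ z : ℝ≥0∞, z ^ p = (z ^ (-p))⁻¹ := fun z => by rw [ENNReal.rpow_neg, inv_inv]
  rw [e, e]
  exact ENNReal.inv_le_inv.2 (ENNReal.rpow_le_rpow h (neg_nonneg.2 hp))

theorem t_ENN (hGIR : S_GIR) (hWHL : S_WHL) (hSER : S_SER) (hMOMC : S_MOMC) (hLAW : S_LAW)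
    (hCNV : S_CNV) : S_ENN := by
  intro μ r c hμ hμ2 hr φ hφ hφb ε₀ Ω _ P X Ω' _ P' _ M hε₀ hX hM q hq hq2
  obtain ⟨hProf, hF, hV, hkm, hrm, ⟨C, hC⟩, hexp, hbd, hlim⟩ := hCNV μ r c hμ hr
  obtain ⟨a, b, ha, hab⟩ := hφb
  have hb : 0 < b := lt_of_lt_of_le ha ((hab 0 (by simp)).1.trans (hab 0 (by simp)).2)
  set ε₁ := min ε₀ (1 / 4) with hε₁
  have hε₁p : 0 < ε₁ := lt_min hε₀ (by norm_num)
  have hε₁h : ε₁ ≤ 1 / 2 := (min_le_right _ _).trans (by norm_num)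
  have hsub : ∀ ε ∈ Ioo 0 ε₁, ε ∈ Ioo 0 ε₀ ∧ 0 < ε ∧ ε ≤ 1 / 4 := fun ε he =>
    ⟨⟨he.1, he.2.trans_le (min_le_left _ _)⟩, he.1, (he.2.trans_le (min_le_right _ _)).le⟩
  have hprob : ∀ ε ∈ Ioo 0 ε₁, IsProbabilityMeasure (P ε) := fun ε he =>
    (hF ε (hsub ε he).2.1 (hsub ε he).2.2 _ _ _ (hX ε (hsub ε he).1)).1
  have hlnf : ∀ ε ∈ Ioo 0 ε₁, LNF (Ico 0 1) (P ε) (X ε) (kk μ r c ε) := fun ε he =>
    (hF ε (hsub ε he).2.1 (hsub ε he).2.2 _ _ _ (hX ε (hsub ε he).1)).2.1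
  have hFull : Full μ r c ε₁ Ω P X := ⟨hprob, hlnf⟩
  have hMn : Mn ε₁ Ω P X := ⟨hprob, fun ε he => (hlnf ε he).meas, fun ε he =>
    (hF ε (hsub ε he).2.1 (hsub ε he).2.2 _ _ _ (hX ε (hsub ε he).1)).2.2⟩
  have hIoo : Ioo 0 ε₁ ∈ 𝓝[>] (0 : ℝ) := Ioo_mem_nhdsGT hε₁p
  -- weights
  set k : ℝ → ℝ → ℝ := fun ε u => (Ico (0 : ℝ) 1).indicator (fun u => kk μ r c ε u 0) u with hk
  set w : ℝ → ℝ → ℝ := fun ε u =>
    if 0 < ε ∧ ε ≤ 1 / 4 then (Ico (0 : ℝ) 1).indicator (fun u => φ u * Real.exp (-q * k ε u)) u else 0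
    with hw
  set w₀ : ℝ → ℝ := fun u =>
    (Ioo (0 : ℝ) 1).indicator (fun u => ((Ioo (0 : ℝ) 1).indicator r u) ^ (μ * q) * φ u) u with hw₀
  have hkmeas : ∀ ε, 0 < ε → ε ≤ 1 / 4 → Measurable (k ε) := fun ε h1 h2 => hkm ε h1 h2
  have hwm : ∀ ε, Measurable (w ε) := by
    intro ε
    by_cases h : 0 < ε ∧ ε ≤ 1 / 4
    · have : w ε = (Ico (0 : ℝ) 1).indicator (fun u => φ u * Real.exp (-q * k ε u)) := by
        funext u; simp only [hw, if_pos h]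
      rw [this]
      exact (hφ.mul (Real.measurable_exp.comp ((hkmeas ε h.1 h.2).const_mul (-q)))).indicator
        measurableSet_Ico
    · have : w ε = fun _ => 0 := by funext u; simp only [hw, if_neg h]
      rw [this]; exact measurable_const
  have hw₀m : Measurable w₀ := by
    rw [hw₀]
    exact ((hrm.pow_const (μ * q)).mul hφ).indicator measurableSet_Ioo
  have hIcc : ∀ u ∈ Ico (0 : ℝ) 1, u ∈ Icc (0 : ℝ) 1 := fun u hu => ⟨hu.1, hu.2.le⟩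
  have hφpos : ∀ u ∈ Ico (0 : ℝ) 1, 0 < φ u := fun u hu => lt_of_lt_of_le ha (hab u (hIcc u hu)).1
  have hwval : ∀ ε, 0 < ε → ε ≤ 1 / 4 → ∀ u ∈ Ico (0 : ℝ) 1,
      w ε u = φ u * Real.exp (-q * kk μ r c ε u 0) := by
    intro ε h1 h2 u hu
    simp only [hw, if_pos (And.intro h1 h2), indicator_of_mem hu, hk]
  have hwnn : ∀ ε u, 0 ≤ w ε u := by
    intro ε u
    by_cases h : 0 < ε ∧ ε ≤ 1 / 4
    · simp only [hw, if_pos h]
      refine indicator_nonneg (fun v hv => ?_) u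
      exact mul_nonneg (hφpos v hv).le (Real.exp_pos _).le
    · simp only [hw, if_neg h]; exact le_rfl
  have hw₀nn : ∀ u, 0 ≤ w₀ u := by
    intro u
    refine indicator_nonneg (fun v hv => ?_) u
    refine mul_nonneg (Real.rpow_nonneg ?_ _) (hφpos v ⟨hv.1.le, hv.2⟩).le
    rw [indicator_of_mem hv]; exact (hProf.pos v hv).le
  have hw₀val : ∀ u ∈ Ioo (0 : ℝ) 1, w₀ u = r u ^ (μ * q) * φ u := by
    intro u hu
    simp only [hw₀, indicator_of_mem hu]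
  have hwbd : ∀ ε ∈ Ioo 0 ε₁, ∃ B : ℝ, ∀ u, w ε u ≤ B := by
    intro ε he
    obtain ⟨V, hVV⟩ := hV ε (hsub ε he).2.1 (hsub ε he).2.2
    refine ⟨b * Real.exp (|q| * V), fun u => ?_⟩
    by_cases hu : u ∈ Ico (0 : ℝ) 1
    · rw [hwval ε (hsub ε he).2.1 (hsub ε he).2.2 u hu]
      refine mul_le_mul (hab u (hIcc u hu)).2 (Real.exp_le_exp.2 ?_) (Real.exp_pos _).le hb.le
      calc -q * kk μ r c ε u 0 ≤ |-q * kk μ r c ε u 0| := le_abs_self _
        _ = |q| * |kk μ r c ε u 0| := by rw [abs_mul, abs_neg]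
        _ ≤ |q| * V := mul_le_mul_of_nonneg_left (hVV u hu 0 (by simp)) (abs_nonneg _)
    · have : w ε u = 0 := by
        simp only [hw]
        split_ifs
        · exact indicator_of_notMem hu _
        · rfl
      rw [this]
      positivity
  have hgap : ∀ u ∈ Ico (0 : ℝ) 1, ∀ δ, 0 < δ → δ ≤ gap c u 0 → u ∈ Ioo (0 : ℝ) 1 := by
    intro u hu δ hδ hg
    refine ⟨lt_of_le_of_ne hu.1 ?_, hu.2⟩
    rintro rfl
    unfold gap at hg
    split_ifs at hg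
    · simp at hg; linarith
    · simp at hg; linarith
  have hcond1 : ∀ δ, 0 < δ → ∃ ε₂, 0 < ε₂ ∧ ∀ ε ∈ Ioo 0 ε₂, ∀ u ∈ Ico (0 : ℝ) 1, δ ≤ gap c u 0 →
      w ε u = w₀ u := by
    intro δ hδ
    refine ⟨min δ (1 / 4), lt_min hδ (by norm_num), fun ε he u hu hg => ?_⟩
    have h4 : ε ≤ 1 / 4 := (he.2.trans_le (min_le_right _ _)).le
    have hd : ε ≤ gap c u 0 := ((he.2.trans_le (min_le_left _ _)).le).trans hg
    have hu' := hgap u hu δ hδ hg
    rw [hwval ε he.1 h4 u hu, hw₀val u hu', hexp q ε u he.1 h4 hu' hd, mul_comm]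
  have hcond2 : ∀ δ, 0 < δ → ∃ B : ℝ, ∀ u ∈ Ico (0 : ℝ) 1, δ ≤ gap c u 0 → w₀ u ≤ B := by
    intro δ hδ
    obtain ⟨B, hB⟩ := hbd q δ hδ
    refine ⟨|B| * b, fun u hu hg => ?_⟩
    have hu' := hgap u hu δ hδ hg
    rw [hw₀val u hu']
    exact mul_le_mul ((hB u hu' hg).trans (le_abs_self _)) (hab u (hIcc u hu)).2 (hφpos u hu).le
      (abs_nonneg _)
  have hcond3 : ∃ s : ℝ, 0 < s ∧ s < 1 ∧ ∀ η : ℝ≥0∞, η ≠ 0 → ∃ δ : ℝ, 0 < δ ∧ δ ≤ 1 / 2 ∧ ∃ ε₂ : ℝ, 0 < ε₂ ∧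
      ∀ ε ∈ Ioo 0 ε₂, ∫⁻ ω, (mass (Dl c δ) (w ε) (X ε) ω) ^ s ∂(P ε) ≤ η := by
    obtain ⟨s, hs0, hs1, hs⟩ := hSER μ r c ε₁ Ω P X hμ hμ2 hProf hε₁p hε₁h hFull q hq
    refine ⟨s, hs0, hs1, fun η hη => ?_⟩
    have hB0 : ENNReal.ofReal b ^ s ≠ 0 := by
      rw [Ne, ENNReal.rpow_eq_zero_iff]
      push Not
      refine ⟨fun h => absurd h (by simp [hb]), fun h => absurd h ENNReal.ofReal_ne_top⟩
    have hBt : ENNReal.ofReal b ^ s ≠ ∞ := ENNReal.rpow_ne_top_of_nonneg hs0.le ENNReal.ofReal_ne_top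
    obtain ⟨δ, hδ0, hδ1, ε₂, hε₂, h⟩ := hs (η / ENNReal.ofReal b ^ s)
      (ENNReal.div_pos hη hBt).ne'
    refine ⟨δ, hδ0, hδ1, min ε₂ (1 / 4), lt_min hε₂ (by norm_num), fun ε he => ?_⟩
    have h4 : ε ≤ 1 / 4 := (he.2.trans_le (min_le_right _ _)).le
    have he2 : ε ∈ Ioo 0 ε₂ := ⟨he.1, he.2.trans_le (min_le_left _ _)⟩
    have hle : ∀ ω, mass (Dl c δ) (w ε) (X ε) ω ≤ ENNReal.ofReal b *
        mass (Dl c δ) (fun u => Real.exp (-q * kk μ r c ε u 0)) (X ε) ω := by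
      intro ω
      unfold mass
      rw [← lintegral_const_mul' _ _ ENNReal.ofReal_ne_top]
      have hDm : MeasurableSet (Dl c δ) := by
        have hg : Measurable (fun u : ℝ => gap c u 0) := by
          unfold gap
          cases c
          · simp only [Bool.false_eq_true, if_false]; fun_prop
          · simp only [if_true]; fun_prop
        exact measurableSet_Ico.inter (measurableSet_lt hg measurable_const)
      refine setLIntegral_mono' hDm fun u hu => ?_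
      rw [← ENNReal.ofReal_mul hb.le]
      refine ENNReal.ofReal_le_ofReal ?_
      rw [hwval ε he.1 h4 u hu.1, mul_assoc]
      exact mul_le_mul_of_nonneg_right (hab u (hIcc u hu.1)).2 (by positivity)
    calc ∫⁻ ω, (mass (Dl c δ) (w ε) (X ε) ω) ^ s ∂(P ε)
        ≤ ∫⁻ ω, ENNReal.ofReal b ^ s *
          (mass (Dl c δ) (fun u => Real.exp (-q * kk μ r c ε u 0)) (X ε) ω) ^ s ∂(P ε) := by
          refine lintegral_mono fun ω => ?_
          rw [← ENNReal.mul_rpow_of_nonneg _ _ hs0.le]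
          exact ENNReal.rpow_le_rpow (hle ω) hs0.le
      _ = ENNReal.ofReal b ^ s * ∫⁻ ω,
          (mass (Dl c δ) (fun u => Real.exp (-q * kk μ r c ε u 0)) (X ε) ω) ^ s ∂(P ε) :=
          lintegral_const_mul' _ _ hBt
      _ ≤ ENNReal.ofReal b ^ s * (η / ENNReal.ofReal b ^ s) := by gcongr; exact h ε he2
      _ = η := ENNReal.mul_div_cancel hB0 hBt
  obtain ⟨hlaw, hfin⟩ := hLAW c ε₁ Ω P X Ω' P' M hε₁p hMn hM w w₀ hwm hw₀m hwnn hw₀nn hwbd hcond1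
    hcond2 hcond3
  -- the inner integral of the limit
  have hin : ∀ ω, ∫⁻ u in Ioo 0 1, ENNReal.ofReal (w₀ u) ∂(M ω) =
      ∫⁻ u in Ioo 0 1, ENNReal.ofReal (r u ^ (μ * q) * φ u) ∂(M ω) := fun ω =>
    setLIntegral_congr_fun measurableSet_Ioo fun u hu => by simp only [hw₀val u hu]
  simp only [hin] at hlaw hfin
  have hZ'm : Measurable (fun ω => (∫⁻ u in Ioo 0 1, ENNReal.ofReal (r u ^ (μ * q) * φ u) ∂(M ω))) := by
    have h1 : Measurable fun ω => ∫⁻ u, (Ioo (0 : ℝ) 1).indicator (fun u => ENNReal.ofReal (w₀ u)) u ∂(M ω) :=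
      (Measure.measurable_lintegral ((ENNReal.measurable_ofReal.comp hw₀m).indicator
        measurableSet_Ioo)).comp hM.meas
    have h2 : (fun ω => (∫⁻ u in Ioo 0 1, ENNReal.ofReal (r u ^ (μ * q) * φ u) ∂(M ω))) =
        fun ω => ∫⁻ u, (Ioo (0 : ℝ) 1).indicator (fun u => ENNReal.ofReal (w₀ u)) u ∂(M ω) := by
      funext ω
      rw [← hin ω, lintegral_indicator measurableSet_Ioo]
    rw [h2]; exact h1
  -- the case q = 0
  rcases eq_or_ne q 0 with rfl | hq0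
  · refine ⟨hfin, by simp, ?_⟩
    simp only [ENNReal.rpow_zero, zero_mul, zero_div, mul_zero, Real.exp_zero, ENNReal.ofReal_one,
      one_mul, lintegral_const]
    refine tendsto_const_nhds.congr' ?_
    filter_upwards [hIoo] with ε he
    have := hprob ε he
    simp
  -- moment bounds
  have hmassfin : ∀ ε ∈ Ioo 0 ε₁, ∀ᵐ ω ∂(P ε), mass (Ico 0 1) (w ε) (X ε) ω ≠ ∞ := by
    intro ε he
    obtain ⟨B, hB⟩ := hwbd ε he
    have := hprob ε he
    have hm : Measurable (mass (Ico 0 1) (w ε) (X ε)) := mass_measurable (hwm ε) (hlnf ε he).meas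
    have hfi : ∫⁻ ω, mass (Ico 0 1) (w ε) (X ε) ω ∂(P ε) ≠ ∞ := by
      have h1 : ∫⁻ ω, mass (Ico 0 1) (w ε) (X ε) ω ∂(P ε) ≤
          ENNReal.ofReal |B| := by
        have hmm : Measurable (fun p : Ω ε × ℝ => ENNReal.ofReal |B| * ex (X ε p.2 p.1)) :=
          (ENNReal.measurable_ofReal.comp (Real.measurable_exp.comp
            ((hlnf ε he).meas.comp measurable_swap))).const_mul _
        calc ∫⁻ ω, mass (Ico 0 1) (w ε) (X ε) ω ∂(P ε)
            ≤ ∫⁻ ω, (∫⁻ u in Ico (0 : ℝ) 1, ENNReal.ofReal |B| * ex (X ε u ω)) ∂(P ε) := by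
              refine lintegral_mono fun ω => ?_
              unfold mass
              refine lintegral_mono fun u => ?_
              simp only [ex]
              rw [← ENNReal.ofReal_mul (abs_nonneg _)]
              exact ENNReal.ofReal_le_ofReal (mul_le_mul_of_nonneg_right
                ((hB u).trans (le_abs_self _)) (Real.exp_pos _).le)
          _ = ∫⁻ u in Ico (0 : ℝ) 1, (∫⁻ ω, ENNReal.ofReal |B| * ex (X ε u ω) ∂(P ε)) :=
              lintegral_lintegral_swap hmm.aemeasurable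
          _ = ∫⁻ u in Ico (0 : ℝ) 1, ENNReal.ofReal |B| := by
              refine setLIntegral_congr_fun measurableSet_Ico fun u hu => ?_
              rw [lintegral_const_mul' _ _ ENNReal.ofReal_ne_top, hMn.mean ε he u hu, mul_one]
          _ = ENNReal.ofReal |B| := by simp
      exact ne_top_of_le_ne_top ENNReal.ofReal_ne_top h1
    filter_upwards [ae_lt_top hm hfi] with ω hω using hω.ne
  have hmasscmp : ∃ (p : ℝ) (C' : ℝ≥0∞), ((0 < q ∧ q < p) ∨ (p < q ∧ q < 0)) ∧ C' ≠ ∞ ∧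
      ∀ ε ∈ Ioo 0 ε₁, ∫⁻ ω, (mass (Ico 0 1) (w ε) (X ε) ω) ^ p ∂(P ε) ≤ C' := by
    rcases lt_or_gt_of_ne hq0 with hneg | hpos
    · -- q < 0
      obtain ⟨C₁, hC₁, hC₁b⟩ := hWHL μ r c ε₁ Ω P X hμ hμ2 hProf hε₁p hε₁h hFull (q - 1)
        (by have : (0 : ℝ) < 2 / μ := by positivity
            linarith)
      set B := a * Real.exp (-(-q) * C) with hB
      have hBp : 0 < B := by positivity
      refine ⟨q - 1, ENNReal.ofReal B ^ (q - 1) * C₁, Or.inr ⟨by linarith, hneg⟩,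
        ENNReal.mul_ne_top ?_ hC₁, fun ε he => ?_⟩
      · exact ENNReal.rpow_ne_top_of_ne_zero (by simp [hBp]) ENNReal.ofReal_ne_top
      have hle : ∀ ω, ENNReal.ofReal B * mas (Ico 0 1) (X ε) ω ≤ mass (Ico 0 1) (w ε) (X ε) ω := by
        intro ω
        unfold mass mas
        rw [← lintegral_const_mul' _ _ ENNReal.ofReal_ne_top]
        refine setLIntegral_mono' measurableSet_Ico fun u hu => ?_
        rw [← ENNReal.ofReal_mul hBp.le]
        refine ENNReal.ofReal_le_ofReal (mul_le_mul_of_nonneg_right ?_ (Real.exp_pos _).le)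
        rw [hwval ε (hsub ε he).2.1 (hsub ε he).2.2 u hu, hB]
        refine mul_le_mul (hab u (hIcc u hu)).1 (Real.exp_le_exp.2 ?_) (Real.exp_pos _).le
          (hφpos u hu).le
        have := hC ε (hsub ε he).2.1 (hsub ε he).2.2 u hu
        nlinarith
      calc ∫⁻ ω, (mass (Ico 0 1) (w ε) (X ε) ω) ^ (q - 1) ∂(P ε)
          ≤ ∫⁻ ω, ENNReal.ofReal B ^ (q - 1) * (mas (Ico 0 1) (X ε) ω) ^ (q - 1) ∂(P ε) := by
            refine lintegral_mono fun ω => ?_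
            have h0 : (ENNReal.ofReal B * mas (Ico 0 1) (X ε) ω) ^ (q - 1) =
                ENNReal.ofReal B ^ (q - 1) * (mas (Ico 0 1) (X ε) ω) ^ (q - 1) := by
              rcases eq_or_ne (mas (Ico 0 1) (X ε) ω) 0 with h | h
              · rw [h, mul_zero, ENNReal.zero_rpow_of_neg (by linarith)]
                rw [ENNReal.mul_top]
                rw [Ne, ENNReal.rpow_eq_zero_iff]
                push Not
                exact ⟨fun h => absurd h (by simp [hBp]), fun h => absurd h ENNReal.ofReal_ne_top⟩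
              · exact ENNReal.mul_rpow_of_ne_zero (by simp [hBp]) h _
            rw [← h0]
            exact rpow_anti (by linarith) (hle ω)
        _ = ENNReal.ofReal B ^ (q - 1) * mom (P ε) (Ico 0 1) (X ε) (q - 1) := by
            rw [lintegral_const_mul']
            · rfl
            · exact ENNReal.rpow_ne_top_of_ne_zero (by simp [hBp]) ENNReal.ofReal_ne_top
        _ ≤ _ := by gcongr; exact hC₁b ε he
    · -- q > 0
      set p := (q + 2 / μ) / 2 with hp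
      have hp1 : q < p := by rw [hp]; linarith
      have hp2 : p < 2 / μ := by rw [hp]; linarith
      have hp0 : 0 < p := hpos.trans hp1
      obtain ⟨C₁, hC₁, hC₁b⟩ := hWHL μ r c ε₁ Ω P X hμ hμ2 hProf hε₁p hε₁h hFull p hp2
      set B := b * Real.exp (q * C) with hB
      have hBp : 0 < B := by positivity
      refine ⟨p, ENNReal.ofReal B ^ p * C₁, Or.inl ⟨hpos, hp1⟩,
        ENNReal.mul_ne_top (ENNReal.rpow_ne_top_of_nonneg hp0.le ENNReal.ofReal_ne_top) hC₁,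
        fun ε he => ?_⟩
      have hle : ∀ ω, mass (Ico 0 1) (w ε) (X ε) ω ≤ ENNReal.ofReal B * mas (Ico 0 1) (X ε) ω := by
        intro ω
        unfold mass mas
        rw [← lintegral_const_mul' _ _ ENNReal.ofReal_ne_top]
        refine setLIntegral_mono' measurableSet_Ico fun u hu => ?_
        rw [← ENNReal.ofReal_mul hBp.le]
        refine ENNReal.ofReal_le_ofReal (mul_le_mul_of_nonneg_right ?_ (Real.exp_pos _).le)
        rw [hwval ε (hsub ε he).2.1 (hsub ε he).2.2 u hu, hB]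
        refine mul_le_mul (hab u (hIcc u hu)).2 (Real.exp_le_exp.2 ?_) (Real.exp_pos _).le hb.le
        have := hC ε (hsub ε he).2.1 (hsub ε he).2.2 u hu
        nlinarith
      calc ∫⁻ ω, (mass (Ico 0 1) (w ε) (X ε) ω) ^ p ∂(P ε)
          ≤ ∫⁻ ω, ENNReal.ofReal B ^ p * (mas (Ico 0 1) (X ε) ω) ^ p ∂(P ε) := by
            refine lintegral_mono fun ω => ?_
            rw [← ENNReal.mul_rpow_of_nonneg _ _ hp0.le]
            exact ENNReal.rpow_le_rpow (hle ω) hp0.le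
        _ = ENNReal.ofReal B ^ p * mom (P ε) (Ico 0 1) (X ε) p := by
            rw [lintegral_const_mul']
            · rfl
            · exact ENNReal.rpow_ne_top_of_nonneg hp0.le ENNReal.ofReal_ne_top
        _ ≤ _ := by gcongr; exact hC₁b ε he
  obtain ⟨p, C', hpq, hC', hbound⟩ := hmasscmp
  have hmom := hMOMC ε₁ Ω P (fun ε ω => (mass (Ico 0 1) (w ε) (X ε) ω).toReal) Ω' P'
    (fun ω => (∫⁻ u in Ioo 0 1, ENNReal.ofReal (r u ^ (μ * q) * φ u) ∂(M ω)).toReal) hε₁p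
    (fun ε he => ⟨hprob ε he, ((mass_measurable (hwm ε) (hlnf ε he).meas).ennreal_toReal).aemeasurable⟩)
    (hZ'm.ennreal_toReal.aemeasurable) (fun _ _ => ENNReal.toReal_nonneg)
    (fun _ => ENNReal.toReal_nonneg) hlaw q p C' hpq hC' (fun ε he => by
      calc ∫⁻ ω, ENNReal.ofReal ((mass (Ico 0 1) (w ε) (X ε) ω).toReal) ^ p ∂(P ε)
          = ∫⁻ ω, (mass (Ico 0 1) (w ε) (X ε) ω) ^ p ∂(P ε) := by
            refine lintegral_congr_ae ?_
            filter_upwards [hmassfin ε he] with ω hω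
            rw [ENNReal.ofReal_toReal hω]
        _ ≤ C' := hbound ε he)
  obtain ⟨hm1, hm2⟩ := hmom
  have hR : ∫⁻ ω, ENNReal.ofReal ((∫⁻ u in Ioo 0 1,
        ENNReal.ofReal (r u ^ (μ * q) * φ u) ∂(M ω)).toReal) ^ q ∂P' =
      ∫⁻ ω, (∫⁻ u in Ioo 0 1, ENNReal.ofReal (r u ^ (μ * q) * φ u) ∂(M ω)) ^ q ∂P' := by
    refine lintegral_congr_ae ?_
    filter_upwards [hfin] with ω hω
    rw [ENNReal.ofReal_toReal hω.ne]
  rw [hR] at hm1 hm2
  refine ⟨hfin, hm2, ?_⟩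
  have hpre : Tendsto (fun ε => ENNReal.ofReal (Real.exp (μ * (Real.log (r ε) - 1) * (q * (q + 1) / 2)) *
      Real.exp (q * (q + 1) / 2 * kk μ r c ε 0 0))) (𝓝[>] 0) (𝓝 1) := by
    have := ENNReal.tendsto_ofReal (hlim q)
    simpa using this
  have hprod := ENNReal.Tendsto.mul hpre (Or.inr hm2) hm1 (Or.inr ENNReal.one_ne_top)
  rw [one_mul] at hprod
  refine hprod.congr' ?_
  filter_upwards [hIoo] with ε he
  have := hprob ε he
  obtain ⟨V, hVV⟩ := hV ε (hsub ε he).2.1 (hsub ε he).2.2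
  have hG := hGIR (Ω ε) (P ε) (Ico 0 1) (X ε) (kk μ r c ε) 0 measurableSet_Ico (by simp) (by simp)
    (hlnf ε he) (by simp) ⟨V, hVV⟩ (k ε) φ (hkmeas ε (hsub ε he).2.1 (hsub ε he).2.2)
    (fun u hu => by simp only [hk, indicator_of_mem hu]) hφ
    ⟨a, b, ha, fun u hu => hab u (hIcc u hu)⟩ q
  have e1 : ∀ ω, ∫⁻ u in Icc (0 : ℝ) 1, ENNReal.ofReal (φ u * Real.exp (X ε u ω - X ε 0 ω)) =
      mass (Ico 0 1) φ (fun u ω => X ε u ω - X ε 0 ω) ω := by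
    intro ω
    unfold mass
    exact (setLIntegral_congr Ico_ae_eq_Icc).symm
  simp only [e1]
  rw [hG, ENNReal.ofReal_mul (Real.exp_pos _).le, mul_assoc]
  congr 2
  refine lintegral_congr_ae ?_
  filter_upwards [hmassfin ε he] with ω hω
  rw [ENNReal.ofReal_toReal hω]
  congr 1
  unfold mass
  refine setLIntegral_congr_fun measurableSet_Ico fun u hu => ?_
  simp only [hwval ε (hsub ε he).2.1 (hsub ε he).2.2 u hu, hk, indicator_of_mem hu]

end Pool.Agent.H629.CG
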