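import Pool.Agent.H629.CG.Defs

/-!
# MP_e22585_pr: statements of the steps
-/

set_option autoImplicit false

namespace Pool.Agent.H629.CG

open MeasureTheory ProbabilityTheory Filter Topology Set
open scoped ENNReal NNReal

/-! ## K. Kahane's inequality -/

/-- [CM] Cameron–Martin for the standard Gaussian measure. -/
def S_CM : Prop := ∀ (N : ℕ) (a : Fin N → ℝ) (g : (Fin N → ℝ) → ℝ≥0∞), Measurable g →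
  ∫⁻ z, ex (∑ k, a k * z k - (∑ k, a k ^ 2) / 2) * g z ∂gam N = ∫⁻ z, g (z + a) ∂gam N

/-- [KREP] Representation of Gaussian vectors. -/
def S_KREP : Prop := ∀ (n : ℕ) (Ω : Type) [MeasurableSpace Ω] (P : Measure Ω) (X : Fin n → Ω → ℝ),
  HasGaussianLaw (fun ω (i : Fin n) => X i ω) P →
  ∃ A : Fin n → Fin n → ℝ, (∀ i j, ∑ k, A i k * A j k = cov[X i, X j; P]) ∧
    P.map (fun ω (i : Fin n) => X i ω) =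
      (gam n).map (fun z (i : Fin n) => (∫ ω, X i ω ∂P) + ∑ k, A i k * z k)

/-- [KUNIQ] Equal Gram matrices give equal laws. -/
def S_KUNIQ : Prop := ∀ (n N M : ℕ) (A : Fin n → Fin N → ℝ) (B : Fin n → Fin M → ℝ),
  (∀ i j, ∑ k, A i k * A j k = ∑ k, B i k * B j k) →
  (gam N).map (fun z (i : Fin n) => ∑ k, A i k * z k) =
    (gam M).map (fun z (i : Fin n) => ∑ k, B i k * z k)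

/-- [KDOM] Domination. -/
def S_KDOM : Prop :=
  (∀ (N : ℕ) (c : ℝ), Integrable (fun z : Fin N → ℝ => Real.exp (c * ∑ k, |z k|)) (gam N)) ∧
  (∀ (n N : ℕ), 0 < n → ∀ R m : ℝ, ∃ C c : ℝ, ∀ ξ : Fin n → Fin N → ℝ, (∀ i k, |ξ i k| ≤ R) →
    ∀ z : Fin N → ℝ, (WW ξ z) ^ m ≤ C * Real.exp (c * ∑ k, |z k|) ∧
      ∀ i, ee ξ i z ≤ C * Real.exp (c * ∑ k, |z k|))

/-- [KDER] Derivative along a curve. -/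
def S_KDER : Prop := ∀ (n N : ℕ), 0 < n → ∀ F F1 F2 : ℝ → ℝ, Good F F1 F2 →
  ∀ ξ ξ' : ℝ → Fin n → Fin N → ℝ, (∀ θ i k, HasDerivAt (fun τ => ξ τ i k) (ξ' θ i k) θ) →
  (∀ i k, Continuous (fun θ => ξ' θ i k)) → ∀ θ : ℝ,
  HasDerivAt (fun τ => ∫ z, F (WW (ξ τ) z) ∂gam N)
    (∫ z, F1 (WW (ξ θ) z) * ∑ i, ee (ξ θ) i z *
      (∑ k, ξ' θ i k * z k - ∑ k, ξ θ i k * ξ' θ i k) ∂gam N) θ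

/-- [KST] Gaussian integration by parts. -/
def S_KST : Prop := ∀ (n N : ℕ), 0 < n → ∀ F F1 F2 : ℝ → ℝ, Good F F1 F2 →
  ∀ ξ η : Fin n → Fin N → ℝ,
  ∫ z, F1 (WW ξ z) * ∑ i, ee ξ i z * (∑ k, η i k * z k - ∑ k, ξ i k * η i k) ∂gam N =
    ∑ i, ∑ j, (∑ k, η i k * ξ j k) * ∫ z, F2 (WW ξ z) * (ee ξ i z * ee ξ j z) ∂gam N

/-- [KMON] Kahane's inequality for standard representations. -/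
def S_KMON : Prop := ∀ (n N : ℕ), 0 < n → ∀ F F1 F2 : ℝ → ℝ, Good F F1 F2 →
  (∀ w, 0 < w → 0 ≤ F2 w) → ∀ A B : Fin n → Fin N → ℝ,
  (∀ i j, ∑ k, A i k * A j k ≤ ∑ k, B i k * B j k) →
  Integrable (fun z => F (WW A z)) (gam N) ∧ Integrable (fun z => F (WW B z)) (gam N) ∧
  ∫ z, F (WW A z) ∂gam N ≤ ∫ z, F (WW B z) ∂gam N

/-- [KFD] Kahane's inequality for powers, finite dimensional. -/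
def S_KFD : Prop := ∀ (n : ℕ), 0 < n → ∀ (Ω Ω' : Type) [MeasurableSpace Ω] [MeasurableSpace Ω']
  (P : Measure Ω) (P' : Measure Ω') (X : Fin n → Ω → ℝ) (Y : Fin n → Ω' → ℝ),
  HasGaussianLaw (fun ω (i : Fin n) => X i ω) P → HasGaussianLaw (fun ω (i : Fin n) => Y i ω) P' →
  (∀ i, ∫ ω, X i ω ∂P = -(cov[X i, X i; P]) / 2) →
  (∀ i, ∫ ω, Y i ω ∂P' = -(cov[Y i, Y i; P']) / 2) →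
  (∀ i j, cov[X i, X j; P] ≤ cov[Y i, Y j; P']) → ∀ a : ℝ,
  ((1 ≤ a ∨ a ≤ 0) → ∫⁻ ω, (ENNReal.ofReal (∑ i, Real.exp (X i ω))) ^ a ∂P ≤
    ∫⁻ ω, (ENNReal.ofReal (∑ i, Real.exp (Y i ω))) ^ a ∂P') ∧
  (0 ≤ a → a ≤ 1 → ∫⁻ ω, (ENNReal.ofReal (∑ i, Real.exp (Y i ω))) ^ a ∂P' ≤
    ∫⁻ ω, (ENNReal.ofReal (∑ i, Real.exp (X i ω))) ^ a ∂P)

/-- [UI] Convergence of moments from almost sure convergence. -/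
def S_UI : Prop := ∀ (Ω : Type) [MeasurableSpace Ω] (P : Measure Ω) [IsProbabilityMeasure P]
  (Z : ℕ → Ω → ℝ≥0∞) (Z' : Ω → ℝ≥0∞), (∀ n, Measurable (Z n)) → Measurable Z' →
  (∀ᵐ ω ∂P, Tendsto (fun n => Z n ω) atTop (𝓝 (Z' ω))) → (∀ᵐ ω ∂P, Z' ω ≠ 0 ∧ Z' ω ≠ ∞) →
  ∀ (a b : ℝ) (C : ℝ≥0∞), ((0 < a ∧ a < b) ∨ (b < a ∧ a < 0)) → C ≠ ∞ →
  (∀ n, ∫⁻ ω, Z n ω ^ b ∂P ≤ C) →
  Tendsto (fun n => ∫⁻ ω, Z n ω ^ a ∂P) atTop (𝓝 (∫⁻ ω, Z' ω ^ a ∂P)) ∧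
  ∫⁻ ω, Z' ω ^ a ∂P ≠ ∞

/-- [SLLN] The strong law of large numbers for independent sample points. -/
def S_SLLN : Prop := ∀ (S : Type) [MeasurableSpace S] (ν : Measure S) [IsProbabilityMeasure ν]
  (g : S → ℝ), Measurable g → Integrable g ν →
  ∀ᵐ U ∂(Measure.infinitePi fun _ : ℕ => ν),
    Tendsto (fun n : ℕ => (∑ i : Fin (n + 1), g (U i)) / ((n : ℝ) + 1)) atTop (𝓝 (∫ u, g u ∂ν))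

/-- [TRP] Transfer from finitely many random sample points to the integral. -/
def S_TRP : Prop := ∀ (S Ω : Type) [MeasurableSpace S] [MeasurableSpace Ω] (ν : Measure S)
  (P : Measure Ω) [IsProbabilityMeasure ν] [IsProbabilityMeasure P] (f : S → Ω → ℝ),
  Measurable (Function.uncurry f) → (∀ u ω, 0 < f u ω) →
  (∀ b : ℝ, ∃ C : ℝ≥0∞, C ≠ ∞ ∧ ∀ᵐ u ∂ν, ∫⁻ ω, ENNReal.ofReal (f u ω) ^ b ∂P ≤ C) →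
  ∀ a : ℝ,
  Tendsto (fun n : ℕ => ∫⁻ U : ℕ → S, ∫⁻ ω,
      ENNReal.ofReal (∑ i : Fin (n + 1), f (U i) ω) ^ a * ENNReal.ofReal (n + 1) ^ (-a) ∂P
      ∂(Measure.infinitePi fun _ : ℕ => ν)) atTop
    (𝓝 (∫⁻ ω, (∫⁻ u, ENNReal.ofReal (f u ω) ∂ν) ^ a ∂P)) ∧
  ∫⁻ ω, (∫⁻ u, ENNReal.ofReal (f u ω) ∂ν) ^ a ∂P ≠ ∞

/-- [LNM] Moments of one point of a log-normal field. -/
def S_LNM : Prop := ∀ (Ω : Type) [MeasurableSpace Ω] (P : Measure Ω) (A : Set ℝ)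
  (X : ℝ → Ω → ℝ) (K : ℝ → ℝ → ℝ), LNF A P X K → ∀ t ∈ A, ∀ b : ℝ,
  ∫⁻ ω, (ex (X t ω)) ^ b ∂P = ex ((b ^ 2 - b) / 2 * K t t)

/-- [JEN] Elementary moment bounds by Jensen's inequality. -/
def S_JEN : Prop := ∀ (Ω : Type) [MeasurableSpace Ω] (P : Measure Ω) [IsProbabilityMeasure P]
  (A : Set ℝ) (X : ℝ → Ω → ℝ) (K : ℝ → ℝ → ℝ), MeasurableSet A → 0 < volume A → volume A ≠ ∞ →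
  LNF A P X K → ∀ a : ℝ,
  (∀ V : ℝ, (∀ t ∈ A, K t t ≤ V) → (1 ≤ a ∨ a ≤ 0) →
    mom P A X a ≤ (volume A) ^ a * ex ((a ^ 2 - a) / 2 * V)) ∧
  (0 ≤ a → a ≤ 1 → mom P A X a ≤ (volume A) ^ a) ∧ mom P A X 1 = volume A

/-- [KAH] Kahane's inequality for fields. -/
def S_KAH : Prop := ∀ (Ω Ω' : Type) [MeasurableSpace Ω] [MeasurableSpace Ω'] (P : Measure Ω)
  (P' : Measure Ω') [IsProbabilityMeasure P] [IsProbabilityMeasure P'] (A : Set ℝ)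
  (X : ℝ → Ω → ℝ) (Y : ℝ → Ω' → ℝ) (K L : ℝ → ℝ → ℝ), MeasurableSet A → 0 < volume A →
  volume A ≠ ∞ → LNF A P X K → LNF A P' Y L → (∃ V : ℝ, ∀ t ∈ A, L t t ≤ V) →
  (∀ s ∈ A, ∀ t ∈ A, K s t ≤ L s t) → ∀ a : ℝ,
  ((1 ≤ a ∨ a ≤ 0) → mom P A X a ≤ mom P' A Y a) ∧
  (0 ≤ a → a ≤ 1 → mom P' A Y a ≤ mom P A X a)

/-- [GFD] Girsanov, finite dimensional. -/
def S_GFD : Prop := ∀ (n : ℕ) (Ω : Type) [MeasurableSpace Ω] (P : Measure Ω)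
  (X : Fin n → Ω → ℝ) (X0 : Ω → ℝ),
  HasGaussianLaw (fun ω (i : Fin (n + 1)) => (Fin.cons (X0 ω) (fun j => X j ω) : Fin (n + 1) → ℝ) i) P →
  ∀ (lam : ℝ) (g : (Fin n → ℝ) → ℝ≥0∞), Measurable g →
  ∫⁻ ω, ex (lam * (X0 ω - ∫ ω', X0 ω' ∂P) - lam ^ 2 * cov[X0, X0; P] / 2) *
      g (fun i => X i ω) ∂P =
    ∫⁻ ω, g (fun i => X i ω + lam * cov[X i, X0; P]) ∂P

/-- [GIR] Girsanov for the moments of the centered field. -/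
def S_GIR : Prop := ∀ (Ω : Type) [MeasurableSpace Ω] (P : Measure Ω) [IsProbabilityMeasure P]
  (A : Set ℝ) (X : ℝ → Ω → ℝ) (K : ℝ → ℝ → ℝ) (t₀ : ℝ), MeasurableSet A → 0 < volume A →
  volume A ≠ ∞ → LNF A P X K → t₀ ∈ A → (∃ V : ℝ, ∀ s ∈ A, ∀ t ∈ A, |K s t| ≤ V) →
  ∀ k w : ℝ → ℝ, Measurable k → (∀ u ∈ A, k u = K u t₀) → Measurable w →
  (∃ a b : ℝ, 0 < a ∧ ∀ u ∈ A, a ≤ w u ∧ w u ≤ b) → ∀ q : ℝ,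
  ∫⁻ ω, (mass A w (fun u ω => X u ω - X t₀ ω) ω) ^ q ∂P =
    ex (q * (q + 1) / 2 * K t₀ t₀) *
      ∫⁻ ω, (mass A (fun u => w u * Real.exp (-q * k u)) X ω) ^ q ∂P

/-- [SML] Concave moments of sets where the covariance is large. -/
def S_SML : Prop := ∀ (Ω : Type) [MeasurableSpace Ω] (P : Measure Ω) [IsProbabilityMeasure P]
  (A : Set ℝ) (X : ℝ → Ω → ℝ) (K : ℝ → ℝ → ℝ), MeasurableSet A → volume A ≠ ∞ → LNF A P X K →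
  ∀ v V : ℝ, (∀ s ∈ A, ∀ t ∈ A, v ≤ K s t ∧ K s t ≤ V) → ∀ s : ℝ, 0 < s → s < 1 →
  mom P A X s ≤ (volume A) ^ s * ex (-((s - s ^ 2) / 2 * v))

/-! ## B. Blocks -/

/-- [GEO] Geometry of the blocks. -/
def S_GEO : Prop := ∀ m : ℕ, 0 < m →
  (∀ c, c ≤ 1 → MeasurableSet (evn m c) ∧ evn m c ⊆ Hf ∧ volume (evn m c) = ENNReal.ofReal (1 / 4)) ∧
  evn m 0 ∪ evn m 1 = Hf ∧ Disjoint (evn m 0) (evn m 1) ∧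
  (∀ j, j < 2 * m → ∀ s ∈ blk m j, 2 * m * s - (j : ℝ) / 2 ∈ Hf) ∧
  (∀ c, c ≤ 1 → ∀ i i' : Fin m, i ≠ i' → ∀ s ∈ blk m (2 * i + c), ∀ t ∈ blk m (2 * i' + c),
    1 / (4 * (m : ℝ)) ≤ |s - t| ∧ |s - t| ≤ 1 / 2)

/-- [BLK] The comparison field with independent blocks. -/
def S_BLK : Prop := ∀ (Ω : Type) [MeasurableSpace Ω] (P : Measure Ω) [IsProbabilityMeasure P]
  (X : ℝ → Ω → ℝ) (K : ℝ → ℝ → ℝ), LNF Hf P X K → ∀ V : ℝ, 0 ≤ V → ∀ m c : ℕ, 0 < m → c ≤ 1 →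
  ∃ (Y : ℝ → ((Fin m → Ω) × ℝ) → ℝ) (L : ℝ → ℝ → ℝ),
    LNF (evn m c) ((Measure.pi fun _ : Fin m => P).prod (gaussianReal 0 1)) Y L ∧
    (∀ i : Fin m, ∀ s ∈ blk m (2 * i + c), ∀ t ∈ blk m (2 * i + c),
      L s t = V + K (2 * m * s - ((2 * i + c : ℕ) : ℝ) / 2) (2 * m * t - ((2 * i + c : ℕ) : ℝ) / 2)) ∧
    (∀ i i' : Fin m, i ≠ i' → ∀ s ∈ blk m (2 * i + c), ∀ t ∈ blk m (2 * i' + c), L s t = V) ∧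
    ∀ a : ℝ, mom ((Measure.pi fun _ : Fin m => P).prod (gaussianReal 0 1)) (evn m c) Y a =
      ex ((a ^ 2 - a) / 2 * V) * ENNReal.ofReal (2 * m) ^ (-a) *
        ∫⁻ η : Fin m → Ω, (∑ i, mas Hf X (η i)) ^ a ∂(Measure.pi fun _ => P)

/-- [SUMP] Positive moments of sums of independent copies. -/
def S_SUMP : Prop := ∀ (Ω : Type) [MeasurableSpace Ω] (P : Measure Ω) [IsProbabilityMeasure P]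
  (N : Ω → ℝ≥0∞), Measurable N → ∀ m : ℕ, 0 < m → ∀ p : ℝ, 0 < p →
  ∫⁻ η : Fin m → Ω, (∑ i, N (η i)) ^ p ∂(Measure.pi fun _ => P) ≤
    2 ^ p * m * ∫⁻ ω, N ω ^ p ∂P + (m : ℝ≥0∞) ^ (2 * p + 2) * (∫⁻ ω, N ω ^ (p / 2) ∂P) ^ 2

/-- [SUMN] Negative moments of sums of independent copies, first bound. -/
def S_SUMN : Prop := ∀ (Ω : Type) [MeasurableSpace Ω] (P : Measure Ω) [IsProbabilityMeasure P]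
  (N : Ω → ℝ≥0∞), Measurable N → ∀ m : ℕ, ∀ s x : ℝ, 0 < s → 0 < x →
  ∫⁻ η : Fin (m + 1) → Ω, (∑ i, N (η i)) ^ (-s) ∂(Measure.pi fun _ => P) ≤
    ENNReal.ofReal x ^ (-s) + (P {ω | N ω ≤ ENNReal.ofReal x}) ^ m * ∫⁻ ω, N ω ^ (-s) ∂P

/-- [SUMG] Negative moments of sums of independent copies, second bound. -/
def S_SUMG : Prop := ∀ (Ω : Type) [MeasurableSpace Ω] (P : Measure Ω) [IsProbabilityMeasure P]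
  (N : Ω → ℝ≥0∞), Measurable N → ∀ m : ℕ, 0 < m → ∀ s : ℝ, 0 < s →
  ∫⁻ η : Fin m → Ω, (∑ i, N (η i)) ^ (-s) ∂(Measure.pi fun _ => P) ≤
    (∫⁻ ω, N ω ^ (-(s / m)) ∂P) ^ m

/-- [PZ] A lower bound for the probability of a large value. -/
def S_PZ : Prop := ∀ (p x : ℝ) (C : ℝ≥0∞), 1 < p → 0 < x → C ≠ ∞ → ∃ θ : ℝ≥0∞, θ < 1 ∧
  ∀ (Ω : Type) [MeasurableSpace Ω] (P : Measure Ω) [IsProbabilityMeasure P] (N : Ω → ℝ≥0∞),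
    Measurable N → ∫⁻ ω, N ω ∂P = ENNReal.ofReal (2 * x) → ∫⁻ ω, N ω ^ p ∂P ≤ C →
    P {ω | N ω ≤ ENNReal.ofReal x} ≤ θ

/-- [REC] The recursion over scales. -/
def S_REC : Prop := ∀ (k ε₀ : ℝ), 1 < k → 0 < ε₀ → ∀ (f : ℝ → ℝ≥0∞) (C C' : ℝ≥0∞),
  (∀ ε, 0 < ε → k * ε < ε₀ → f ε ≤ f (k * ε) / 2 + C) →
  (∀ ε, 0 < ε → ε < ε₀ → ε₀ ≤ k * ε → f ε ≤ C') →
  ∀ ε, 0 < ε → ε < ε₀ → f ε ≤ 2 * C + C'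

/-! ## R. The function `r` -/

/-- [R1] Ratios of `r`. -/
def S_R1 : Prop := ∀ r : ℝ → ℝ, Prof r →
  (∀ δ, 0 < δ → ∃ C, 0 ≤ C ∧ ∀ d' d, 0 < d' → d' ≤ d → d ≤ 1 / 2 →
    Real.log (r d) - Real.log (r d') ≤ (1 + δ) * Real.log (d / d') + C ∧
    (1 - δ) * Real.log (d / d') - C ≤ Real.log (r d) - Real.log (r d')) ∧
  ∃ C, 0 ≤ C ∧ ∀ t, 0 < t → t ≤ 1 / 2 → |t * deriv (fun x => Real.log (r x)) t| ≤ C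

/-- [R2] Bounds for `ρ_ε(d)`, `0 < ε ≤ 1/2`, `0 ≤ d ≤ 1/2`. -/
def S_R2 : Prop := ∀ r : ℝ → ℝ, Prof r →
  (∀ δ, 0 < δ → ∃ C, 0 ≤ C ∧
    (∀ k ε d, 1 ≤ k → 0 < ε → ε ≤ 1 / 2 → 0 ≤ d → d ≤ 1 / 2 →
      rho r (ε / k) (d / k) ≤ rho r ε d + (1 + δ) * Real.log k + C) ∧
    (∀ k ε d, 1 ≤ k → 0 < ε → ε ≤ 1 / 2 → 1 / (2 * k) ≤ d → d ≤ 1 / 2 →
      rho r ε d ≤ (1 + δ) * Real.log k + C) ∧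
    (∀ t, 0 < t → t ≤ 1 / 2 → -Real.log (r t) ≤ (1 + δ) * Real.log (1 / t) + C)) ∧
  (∃ C, 0 ≤ C ∧
    (∀ t, 0 < t → t ≤ 1 / 2 → Real.log (r t) ≤ C) ∧
    (∀ ε d, 0 < ε → ε ≤ 1 / 2 → 0 ≤ d → d ≤ 1 / 2 →
      -C ≤ rho r ε d ∧ rho r ε d ≤ -Real.log (r ε) + C) ∧
    (∀ ε d l, 0 < ε → ε ≤ l → 0 ≤ d → d ≤ l → l ≤ 1 / 2 → -Real.log (r l) - C ≤ rho r ε d) ∧
    (∀ ε d l, 0 < ε → ε ≤ 1 / 2 → 0 ≤ d → d ≤ 1 / 2 → 0 < l → l ≤ 1 / 2 → (l / 2 ≤ ε ∨ l / 2 ≤ d) →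
      rho r ε d ≤ -Real.log (r l) + C)) ∧
  (∀ ε₁, 0 < ε₁ → ∃ V, ∀ ε d, ε₁ ≤ ε → ε ≤ 1 / 2 → 0 ≤ d → d ≤ 1 / 2 → rho r ε d ≤ V)

/-! ## F. Moments -/

/-- [CMP] Comparison with independent blocks. -/
def S_CMP : Prop := ∀ (μ : ℝ) (r : ℝ → ℝ), 0 < μ → Prof r → ∀ δ, 0 < δ → ∃ C, 0 ≤ C ∧
  ∀ (ε₀ : ℝ) (Ω : ℝ → Type) [∀ ε, MeasurableSpace (Ω ε)] (P : ∀ ε, Measure (Ω ε))
    (X : ∀ ε, ℝ → Ω ε → ℝ), 0 < ε₀ → ε₀ ≤ 1 / 2 → Fam μ r ε₀ Ω P X →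
  ∀ (m : ℕ), 0 < m → ∀ ε, 0 < ε → 2 * m * ε < ε₀ → ∀ c, c ≤ 1 → ∀ a : ℝ, (1 ≤ a ∨ a ≤ 0) →
    mom (P ε) (evn m c) (X ε) a ≤
      ex ((a ^ 2 - a) / 2 * (μ * (1 + δ) * Real.log (2 * m) + C)) *
        ENNReal.ofReal (2 * m) ^ (-a) *
        ∫⁻ η : Fin m → Ω (2 * m * ε), (∑ i, mas Hf (X (2 * m * ε)) (η i)) ^ a
          ∂(Measure.pi fun _ => P (2 * m * ε))

/-- [POS] Positive moments, half interval. -/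
def S_POS : Prop := ∀ (μ : ℝ) (r : ℝ → ℝ) (ε₀ : ℝ) (Ω : ℝ → Type) [∀ ε, MeasurableSpace (Ω ε)]
  (P : ∀ ε, Measure (Ω ε)) (X : ∀ ε, ℝ → Ω ε → ℝ), 0 < μ → μ < 2 → Prof r → 0 < ε₀ →
  ε₀ ≤ 1 / 2 → Fam μ r ε₀ Ω P X → ∀ p, 0 < p → p < 2 / μ →
  ∃ C : ℝ≥0∞, C ≠ ∞ ∧ ∀ ε ∈ Ioo 0 ε₀, mom (P ε) Hf (X ε) p ≤ C

/-- [NEG0] One negative moment, half interval. -/
def S_NEG0 : Prop := ∀ (μ : ℝ) (r : ℝ → ℝ) (ε₀ : ℝ) (Ω : ℝ → Type) [∀ ε, MeasurableSpace (Ω ε)]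
  (P : ∀ ε, Measure (Ω ε)) (X : ∀ ε, ℝ → Ω ε → ℝ), 0 < μ → μ < 2 → Prof r → 0 < ε₀ →
  ε₀ ≤ 1 / 2 → Fam μ r ε₀ Ω P X → ∃ s, 0 < s ∧
  ∃ C : ℝ≥0∞, C ≠ ∞ ∧ ∀ ε ∈ Ioo 0 ε₀, mom (P ε) Hf (X ε) (-s) ≤ C

/-- [NEG] All negative moments, half interval. -/
def S_NEG : Prop := ∀ (μ : ℝ) (r : ℝ → ℝ) (ε₀ : ℝ) (Ω : ℝ → Type) [∀ ε, MeasurableSpace (Ω ε)]
  (P : ∀ ε, Measure (Ω ε)) (X : ∀ ε, ℝ → Ω ε → ℝ), 0 < μ → μ < 2 → Prof r → 0 < ε₀ →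
  ε₀ ≤ 1 / 2 → Fam μ r ε₀ Ω P X → ∀ s, 0 < s →
  ∃ C : ℝ≥0∞, C ≠ ∞ ∧ ∀ ε ∈ Ioo 0 ε₀, mom (P ε) Hf (X ε) (-s) ≤ C

/-- [WHL] All moments, whole interval. -/
def S_WHL : Prop := ∀ (μ : ℝ) (r : ℝ → ℝ) (c : Bool) (ε₀ : ℝ) (Ω : ℝ → Type)
  [∀ ε, MeasurableSpace (Ω ε)] (P : ∀ ε, Measure (Ω ε)) (X : ∀ ε, ℝ → Ω ε → ℝ), 0 < μ → μ < 2 →
  Prof r → 0 < ε₀ → ε₀ ≤ 1 / 2 → Full μ r c ε₀ Ω P X → ∀ p, p < 2 / μ →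
  ∃ C : ℝ≥0∞, C ≠ ∞ ∧ ∀ ε ∈ Ioo 0 ε₀, mom (P ε) (Ico 0 1) (X ε) p ≤ C

/-- [SER] The region near the singularity. -/
def S_SER : Prop := ∀ (μ : ℝ) (r : ℝ → ℝ) (c : Bool) (ε₀ : ℝ) (Ω : ℝ → Type)
  [∀ ε, MeasurableSpace (Ω ε)] (P : ∀ ε, Measure (Ω ε)) (X : ∀ ε, ℝ → Ω ε → ℝ), 0 < μ → μ < 2 →
  Prof r → 0 < ε₀ → ε₀ ≤ 1 / 2 → Full μ r c ε₀ Ω P X → ∀ q, -1 / μ - 1 / 2 < q →
  ∃ s : ℝ, 0 < s ∧ s < 1 ∧ ∀ η : ℝ≥0∞, η ≠ 0 → ∃ δ : ℝ, 0 < δ ∧ δ ≤ 1 / 2 ∧ ∃ ε₁ : ℝ, 0 < ε₁ ∧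
    ∀ ε ∈ Ioo 0 ε₁, ∫⁻ ω, (mass (Dl c δ) (fun u => Real.exp (-q * kk μ r c ε u 0)) (X ε) ω) ^ s
      ∂(P ε) ≤ η

/-! ## M. The limit measure -/

/-- [LIP] Lipschitz test functions suffice. -/
def S_LIP : Prop := ∀ (ε₀ : ℝ) (Ω : ℝ → Type) [∀ ε, MeasurableSpace (Ω ε)]
  (P : ∀ ε, Measure (Ω ε)) (Z : ∀ ε, Ω ε → ℝ) (Ω' : Type) [MeasurableSpace Ω'] (P' : Measure Ω')
  [IsProbabilityMeasure P'] (Z' : Ω' → ℝ), 0 < ε₀ →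
  (∀ ε ∈ Ioo 0 ε₀, IsProbabilityMeasure (P ε) ∧ AEMeasurable (Z ε) (P ε)) →
  AEMeasurable Z' P' →
  (∀ G : ℝ → ℝ, (∃ L : ℝ≥0, LipschitzWith L G) → (∃ B : ℝ, ∀ x, |G x| ≤ B) →
    Tendsto (fun ε => ∫ ω, G (Z ε ω) ∂(P ε)) (𝓝[>] 0) (𝓝 (∫ ω, G (Z' ω) ∂P'))) →
  LawConv P Z P' Z'

/-- [FAT] Fatou's lemma for convergence in law. -/
def S_FAT : Prop := ∀ (ε₀ : ℝ) (Ω : ℝ → Type) [∀ ε, MeasurableSpace (Ω ε)]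
  (P : ∀ ε, Measure (Ω ε)) (Z : ∀ ε, Ω ε → ℝ) (Ω' : Type) [MeasurableSpace Ω'] (P' : Measure Ω')
  [IsProbabilityMeasure P'] (Z' : Ω' → ℝ), 0 < ε₀ →
  (∀ ε ∈ Ioo 0 ε₀, IsProbabilityMeasure (P ε) ∧ AEMeasurable (Z ε) (P ε)) →
  AEMeasurable Z' P' → (∀ ε ω, 0 ≤ Z ε ω) → (∀ ω, 0 ≤ Z' ω) → LawConv P Z P' Z' →
  ∀ (p : ℝ) (C : ℝ≥0∞), (∀ ε ∈ Ioo 0 ε₀, ∫⁻ ω, ENNReal.ofReal (Z ε ω) ^ p ∂(P ε) ≤ C) →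
  ∫⁻ ω, ENNReal.ofReal (Z' ω) ^ p ∂P' ≤ C

/-- [MOMC] Convergence of moments. -/
def S_MOMC : Prop := ∀ (ε₀ : ℝ) (Ω : ℝ → Type) [∀ ε, MeasurableSpace (Ω ε)]
  (P : ∀ ε, Measure (Ω ε)) (Z : ∀ ε, Ω ε → ℝ) (Ω' : Type) [MeasurableSpace Ω'] (P' : Measure Ω')
  [IsProbabilityMeasure P'] (Z' : Ω' → ℝ), 0 < ε₀ →
  (∀ ε ∈ Ioo 0 ε₀, IsProbabilityMeasure (P ε) ∧ AEMeasurable (Z ε) (P ε)) →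
  AEMeasurable Z' P' → (∀ ε ω, 0 ≤ Z ε ω) → (∀ ω, 0 ≤ Z' ω) → LawConv P Z P' Z' →
  ∀ (q p : ℝ) (C : ℝ≥0∞), ((0 < q ∧ q < p) ∨ (p < q ∧ q < 0)) → C ≠ ∞ →
  (∀ ε ∈ Ioo 0 ε₀, ∫⁻ ω, ENNReal.ofReal (Z ε ω) ^ p ∂(P ε) ≤ C) →
  Tendsto (fun ε => ∫⁻ ω, ENNReal.ofReal (Z ε ω) ^ q ∂(P ε)) (𝓝[>] 0)
    (𝓝 (∫⁻ ω, ENNReal.ofReal (Z' ω) ^ q ∂P')) ∧
  ∫⁻ ω, ENNReal.ofReal (Z' ω) ^ q ∂P' ≠ ∞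

/-- [M1] The intensity of the limit measure. -/
def S_M1 : Prop := ∀ (ε₀ : ℝ) (Ω : ℝ → Type) [∀ ε, MeasurableSpace (Ω ε)]
  (P : ∀ ε, Measure (Ω ε)) (X : ∀ ε, ℝ → Ω ε → ℝ) (Ω' : Type) [MeasurableSpace Ω']
  (P' : Measure Ω') [IsProbabilityMeasure P'] (M : Ω' → Measure ℝ), 0 < ε₀ →
  Mn ε₀ Ω P X → IsLimit P X P' M → ∀ g : ℝ → ℝ≥0∞, Measurable g →
  ∫⁻ ω, ∫⁻ u, g u ∂(M ω) ∂P' ≤ ∫⁻ u in Icc (0 : ℝ) 1, g u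

/-- [M2] Bounded Borel test functions. -/
def S_M2 : Prop := ∀ (ε₀ : ℝ) (Ω : ℝ → Type) [∀ ε, MeasurableSpace (Ω ε)]
  (P : ∀ ε, Measure (Ω ε)) (X : ∀ ε, ℝ → Ω ε → ℝ) (Ω' : Type) [MeasurableSpace Ω']
  (P' : Measure Ω') [IsProbabilityMeasure P'] (M : Ω' → Measure ℝ), 0 < ε₀ →
  Mn ε₀ Ω P X → IsLimit P X P' M → ∀ g : ℝ → ℝ, Measurable g → (∀ u, 0 ≤ g u) →
  (∃ B : ℝ, ∀ u, g u ≤ B) →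
  LawConv P (fun ε ω => (mass (Ico 0 1) g (X ε) ω).toReal) P'
    (fun ω => (∫⁻ u, ENNReal.ofReal (g u) ∂(M ω)).toReal)

/-- [LAW] Convergence in law with a singular weight. -/
def S_LAW : Prop := ∀ (c : Bool) (ε₀ : ℝ) (Ω : ℝ → Type) [∀ ε, MeasurableSpace (Ω ε)]
  (P : ∀ ε, Measure (Ω ε)) (X : ∀ ε, ℝ → Ω ε → ℝ) (Ω' : Type) [MeasurableSpace Ω']
  (P' : Measure Ω') [IsProbabilityMeasure P'] (M : Ω' → Measure ℝ), 0 < ε₀ →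
  Mn ε₀ Ω P X → IsLimit P X P' M → ∀ (w : ℝ → ℝ → ℝ) (w₀ : ℝ → ℝ),
  (∀ ε, Measurable (w ε)) → Measurable w₀ → (∀ ε u, 0 ≤ w ε u) → (∀ u, 0 ≤ w₀ u) →
  (∀ ε ∈ Ioo 0 ε₀, ∃ B : ℝ, ∀ u, w ε u ≤ B) →
  (∀ δ, 0 < δ → ∃ ε₁, 0 < ε₁ ∧ ∀ ε ∈ Ioo 0 ε₁, ∀ u ∈ Ico (0 : ℝ) 1, δ ≤ gap c u 0 →
    w ε u = w₀ u) →
  (∀ δ, 0 < δ → ∃ B : ℝ, ∀ u ∈ Ico (0 : ℝ) 1, δ ≤ gap c u 0 → w₀ u ≤ B) →
  (∃ s : ℝ, 0 < s ∧ s < 1 ∧ ∀ η : ℝ≥0∞, η ≠ 0 → ∃ δ : ℝ, 0 < δ ∧ δ ≤ 1 / 2 ∧ ∃ ε₁ : ℝ, 0 < ε₁ ∧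
    ∀ ε ∈ Ioo 0 ε₁, ∫⁻ ω, (mass (Dl c δ) (w ε) (X ε) ω) ^ s ∂(P ε) ≤ η) →
  LawConv P (fun ε ω => (mass (Ico 0 1) (w ε) (X ε) ω).toReal) P'
    (fun ω => (∫⁻ u in Ioo 0 1, ENNReal.ofReal (w₀ u) ∂(M ω)).toReal) ∧
  ∀ᵐ ω ∂P', ∫⁻ u in Ioo 0 1, ENNReal.ofReal (w₀ u) ∂(M ω) < ∞

/-! ## Z. Conversions -/

/-- [CNV] From the fields of the problem to the internal fields. -/
def S_CNV : Prop := ∀ (μ : ℝ) (r : ℝ → ℝ) (c : Bool), 0 < μ → Admissible r c →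
  Prof r ∧
  (∀ ε, 0 < ε → ε ≤ 1 / 4 → ∀ (Ω : Type) [MeasurableSpace Ω] (P : Measure Ω) (X : ℝ → Ω → ℝ),
    IsField μ r c ε P X → IsProbabilityMeasure P ∧ LNF (Ico 0 1) P X (kk μ r c ε) ∧
      ∀ u ∈ Ico (0 : ℝ) 1, ∫⁻ ω, ex (X u ω) ∂P = 1) ∧
  (∀ ε, 0 < ε → ε ≤ 1 / 4 → ∃ V, ∀ s ∈ Ico (0 : ℝ) 1, ∀ t ∈ Ico (0 : ℝ) 1,
    |kk μ r c ε s t| ≤ V) ∧
  (∀ ε, 0 < ε → ε ≤ 1 / 4 →
    Measurable (fun u => (Ico (0 : ℝ) 1).indicator (fun u => kk μ r c ε u 0) u)) ∧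
  Measurable (fun u => (Ioo (0 : ℝ) 1).indicator r u) ∧
  (∃ C, ∀ ε, 0 < ε → ε ≤ 1 / 4 → ∀ u ∈ Ico (0 : ℝ) 1, -C ≤ kk μ r c ε u 0) ∧
  (∀ q ε u, 0 < ε → ε ≤ 1 / 4 → u ∈ Ioo (0 : ℝ) 1 → ε ≤ gap c u 0 →
    Real.exp (-q * kk μ r c ε u 0) = r u ^ (μ * q)) ∧
  (∀ q δ, 0 < δ → ∃ B : ℝ, ∀ u ∈ Ioo (0 : ℝ) 1, δ ≤ gap c u 0 → r u ^ (μ * q) ≤ B) ∧
  (∀ q, Tendsto (fun ε => Real.exp (μ * (Real.log (r ε) - 1) * (q * (q + 1) / 2)) *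
    Real.exp (q * (q + 1) / 2 * kk μ r c ε 0 0)) (𝓝[>] 0) (𝓝 1))

end Pool.Agent.H629.CG
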